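import Pool.Agent.W595.PT.FB

set_option autoImplicit false

/-!
The module `TT0`: no self extensions, finite projective dimension, number of summands,
acyclicity of the phantom.
-/

namespace Pool.Agent.W595.PT

universe u

open CategoryTheory Gam

/-- the algebra -/
abbrev GG : Type u := Gam LL.{u}

/-- the module -/
abbrev M0 : Type u := ((a : Fin 3) → (AA.{u} a).Y) × Lid LL.{u}

/-- the module, as an object -/
abbrev T0 : ModuleCat.{u} GG.{u} := ModuleCat.of GG.{u} M0.{u}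

instance : Finite M0.{u} := inferInstance

instance : Module.Finite GG.{u} M0.{u} := Module.Finite.of_finite

section ext

lemma exact_AA (a b : Fin 3) (i : ℕ) : (AA.{u} a).ExactAt (AA.{u} b).Y i := by
  rcases lt_trichotomy a b with h | h | h
  · refine exact_of_pos _ _ i fun v w => ?_
    rw [AA_pos, AA_pos]
    have h1 := AA_lab b w
    have h2 : (a : ℕ) < b := h
    have h3 := b.2
    omega
  · subst h
    exact Pool.Agent.W585.PT.BR.s_BRS KK.{u} LL.{u} (AA.{u} a) (AA_self a) i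
  · exact (Pool.Agent.W585.PT.BR.s_BR LL.{u} (AA.{u} a) (AA.{u} b) (AA_hom a b h)).1 i

variable [HasExt.{u} (ModuleCat.{u} GG.{u})]

lemma ext_Lid (Y : ModuleCat.{u} GG.{u}) (i : ℕ) :
    Subsingleton (Abelian.Ext.{u} (ModuleCat.of GG.{u} (Lid LL.{u})) Y (i + 1)) := by
  have : Module.Projective GG.{u} (Lid LL.{u}) := Pool.Agent.W595.PT.LidP.s_PROJ LL.{u}
  have : Projective (ModuleCat.of GG.{u} (Lid LL.{u})) :=
    (IsProjective.iff_projective _).1 this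
  exact Abelian.Ext.subsingleton_of_projective _ _ _

lemma ext_A (a : Fin 3) (W : Type u) [AddCommGroup W] [Module GG.{u} W] (i : ℕ)
    (h : (AA.{u} a).ExactAt W i) :
    Subsingleton (Abelian.Ext.{u} (ModuleCat.of GG.{u} (AA.{u} a).Y) (ModuleCat.of GG.{u} W)
      (i + 1)) :=
  Pool.Agent.W136.PT.s_EXT LL.{u} LL_two (AA.{u} a) W i h

lemma ext_T0 (i : ℕ) : Subsingleton (Abelian.Ext.{u} T0.{u} T0.{u} (i + 1)) := by
  refine ext_left (XX (fun a => (AA.{u} a).Y) (Lid LL.{u})) _ _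
    (prj_inj (S := GG.{u}) (fun a => (AA.{u} a).Y) (Lid LL.{u})) fun a => ?_
  refine ext_right (XX (fun a => (AA.{u} a).Y) (Lid LL.{u})) _ _
    (prj_inj (S := GG.{u}) (fun a => (AA.{u} a).Y) (Lid LL.{u})) fun b => ?_
  match a, b with
  | none, b => exact ext_Lid _ i
  | some a, none =>
    exact ext_A a _ i ((Pool.Agent.W595.PT.LidP.s_LID LL.{u} LL_two (AA.{u} a)).1 i)
  | some a, some b => exact ext_A a _ i (exact_AA a b i)

lemma pd_T0 (i : ℕ) (hi : 6 ≤ i) (Y : ModuleCat.{u} GG.{u}) :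
    Subsingleton (Abelian.Ext.{u} T0.{u} Y (i + 1)) := by
  refine ext_left (XX (fun a => (AA.{u} a).Y) (Lid LL.{u})) _ _
    (prj_inj (S := GG.{u}) (fun a => (AA.{u} a).Y) (Lid LL.{u})) fun a => ?_
  match a with
  | none => exact ext_Lid _ i
  | some a => exact ext_A a Y i (exact_of_large _ _ i hi)

end ext

section acyc

lemma acyc_T0 : ZZ.{u}.Acyc M0.{u} := by
  refine acyc_prod _ _ _ (acyc_pi _ _ fun a => ?_) ?_
  · exact (Pool.Agent.W585.PT.BR.s_BR LL.{u} ZZ.{u} (AA.{u} a) (ZZ_hom a)).2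
  · exact (Pool.Agent.W595.PT.LidP.s_LID LL.{u} LL_two ZZ.{u}).2

lemma nacyc : ¬ ZZ.{u}.Acyc GG.{u} := by
  have h0 : 0 < cZ.n := by decide
  refine Pool.Agent.W595.PT.LidP.s_NACYC LL.{u} ZZ.{u} (⟨0, h0⟩ : Fin cZ.n) ?_ ?_
  · exact ff_ne 0
  · intro v w x
    have h1 : ZZ.{u}.m v w = ZZ.{u}.e v * ZZ.{u}.m v w * ZZ.{u}.e w := by
      rw [ZZ.{u}.em, ZZ.{u}.me]
    have h2 : ∀ v < cZ.n, ∀ w < cZ.n, cZ.lab w = 0 → cZ.m v w = 0 := by decide +kernel
    by_cases h : cZ.lab w = 0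
    · have h3 : ZZ.{u}.m v w = 0 := by
        show ph.{u} (lam (cZ.m v w)) = 0
        rw [h2 v v.2 w w.2 h, lam_zero, map_zero]
      rw [h3, zero_mul, zero_mul]
    · have h4 : ZZ.{u}.e w * x * ff.{u} 0 = 0 := by
        have h5 := cZ_ok.hlab w w.2
        exact ff_zero ⟨cZ.lab w, h5⟩ 0 (by
          show (0 : ℕ) < cZ.lab w
          omega) x
      have h6 : ZZ.{u}.m v w * x * ff.{u} 0 = ZZ.{u}.m v w * (ZZ.{u}.e w * x * ff.{u} 0) := by
        rw [← mul_assoc, ← mul_assoc, ZZ.{u}.me]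
      show ZZ.{u}.m v w * x * ff.{u} 0 = 0
      rw [h6, h4, mul_zero]

end acyc

section count

/-- the projective summands -/
abbrev GI (i : ℕ × Fin 3) : Submodule GG.{u} GG.{u} := Gid i.1 (ff.{u} i.2)

lemma GI_nontrivial (i : ℕ × Fin 3) (hi : i.1 < 7) : Nontrivial (GI.{u} i) := by
  refine ⟨⟨⟨io (ff.{u} i.2) * po i.1, ?_⟩, 0, ?_⟩⟩
  · show io (ff.{u} i.2) * po i.1 * (io (ff.{u} i.2) * po i.1) = io (ff.{u} i.2) * po i.1
    rw [mul_assoc, ← mul_assoc (po _) (io _) (po _), ← io_po, mul_assoc, po_po, ← mul_assoc,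
      ← map_mul, ff_ff]
  · intro h
    have h1 : (io (ff.{u} i.2) * po i.1 : GG.{u}) = 0 := congrArg Subtype.val h
    have h2 := congrArg (fun x => aN x i.1) h1
    simp only [aN_mul, aN_zero] at h2
    rw [aN_io _ hi, aN_po _ hi, if_pos rfl, mul_one] at h2
    exact ff_ne _ h2

lemma GI_iso (i j : ℕ × Fin 3) (hi : i.1 < 7) (hj : j.1 < 7) (h : i ≠ j) :
    IsEmpty (GI.{u} i ≃ₗ[GG.{u}] GI.{u} j) := by
  refine Pool.Agent.W597.PT.GEND.s_GHOM LL.{u} (ff.{u} i.2) (ff.{u} j.2) (ff_ff _) (ff_ff _) i.1 j.1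
    hi hj (ff_ne _) (ff_ne _) ?_
  by_cases h1 : i.1 = j.1
  · right
    have h2 : i.2 ≠ j.2 := fun h3 => h (Prod.ext h1 h3)
    rcases lt_or_gt_of_ne h2 with h3 | h3
    · right
      intro x
      exact ff_zero _ _ h3 x
    · left
      intro x
      exact ff_zero _ _ h3 x
  · left
    exact h1

lemma GI_end (i : ℕ × Fin 3) (g : GI.{u} i →ₗ[GG.{u}] GI.{u} i) : g = 0 ∨ Function.Bijective g :=
  Pool.Agent.W597.PT.GEND.s_GEND LL.{u} (ff.{u} i.2) (ff_ff _) (ff_end _) i.1 g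

lemma AA_nontrivial (a : Fin 3) : Nontrivial (AA.{u} a).Y := by
  have h : 0 < (cAA a).n := by
    match a with
    | 0 => decide
    | 1 => decide
    | 2 => decide
  let v0 : Fin (AA.{u} a).n := ⟨0, h⟩
  refine ⟨⟨TC.Y.mk (fun v => if v = v0 then (AA.{u} a).e v else 0) ?_, 0, ?_⟩⟩
  · intro v
    split_ifs
    · exact (AA.{u} a).ee v
    · rw [zero_mul]
  · intro h1
    have h2 := congrArg (fun y => TC.Y.c y v0) h1
    simp only [TC.Y.c_mk, TC.Y.c_zero] at h2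
    exact AA_e_ne a v0 h2

lemma AA_ee_zero (a b : Fin 3) (v : Fin (AA.{u} a).n) (w : Fin (AA.{u} b).n)
    (h : (cAA b).lab w < (cAA a).lab v) (x : LL.{u}) :
    (AA.{u} a).e v * x * (AA.{u} b).e w = 0 := by
  rw [AA_e, AA_e]
  exact ff_zero _ _ h x

lemma AA_end (a : Fin 3) (g : (AA.{u} a).Y →ₗ[GG.{u}] (AA.{u} a).Y) :
    g = 0 ∨ Function.Bijective g := by
  refine Pool.Agent.W585.PT.ENDY.s_ENDY KK.{u} LL.{u} (AA.{u} a) (AA_self a) ?_ g
  intro v w hvw x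
  rw [AA_pos, AA_pos] at hvw
  have h4 : (cAA a).lab w < (cAA a).lab v := by omega
  exact AA_ee_zero a a v w h4 x

lemma AA_hom0 (a b : Fin 3) (h : b < a) (g : (AA.{u} a).Y →ₗ[GG.{u}] (AA.{u} b).Y) : g = 0 := by
  refine Pool.Agent.W585.PT.ENDY.s_HOMY LL.{u} (AA.{u} a) (AA.{u} b) ?_ g
  intro v w hvw x
  rw [AA_pos, AA_pos] at hvw
  have h2 : (b : ℕ) < a := h
  have h3 := a.2
  have h4 : (cAA b).lab w < (cAA a).lab v := by omega
  exact AA_ee_zero a b v w h4 x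

lemma AA_iso (a b : Fin 3) (h : a ≠ b) : IsEmpty ((AA.{u} a).Y ≃ₗ[GG.{u}] (AA.{u} b).Y) := by
  have key : ∀ a b : Fin 3, b < a → ((AA.{u} a).Y ≃ₗ[GG.{u}] (AA.{u} b).Y) → False := by
    intro a b hab e
    have h1 := AA_hom0 a b hab (e : (AA.{u} a).Y →ₗ[GG.{u}] (AA.{u} b).Y)
    obtain ⟨x, y, hxy⟩ := AA_nontrivial.{u} a
    apply hxy
    apply e.injective
    have h2 : ∀ z, e z = 0 := fun z => congrArg (fun f => f z) h1
    rw [h2, h2]
  refine ⟨fun e => ?_⟩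
  rcases lt_or_gt_of_ne h with h1 | h1
  · exact key b a h1 e.symm
  · exact key a b h1 e

lemma AA_GI (a : Fin 3) (i : ℕ × Fin 3) : IsEmpty ((AA.{u} a).Y ≃ₗ[GG.{u}] GI.{u} i) := by
  have h : ∃ v1 < (cAA a).n, ∃ v2 < (cAA a).n, ∃ v3 < (cAA a).n,
      (cAA a).pos v1 ≠ (cAA a).pos v2 ∧ (cAA a).pos v1 ≠ (cAA a).pos v3 ∧
      (cAA a).pos v2 ≠ (cAA a).pos v3 := by
    match a with
    | 0 => exact ⟨0, by decide, 2, by decide, 4, by decide, by decide, by decide, by decide⟩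
    | 1 => exact ⟨0, by decide, 2, by decide, 5, by decide, by decide, by decide, by decide⟩
    | 2 => exact ⟨0, by decide, 1, by decide, 3, by decide, by decide, by decide, by decide⟩
  obtain ⟨v1, h1, v2, h2, v3, h3, h12, h13, h23⟩ := h
  exact Pool.Agent.W585.PT.ENDY.s_YG LL.{u} (AA.{u} a) ⟨v1, h1⟩ ⟨v2, h2⟩ ⟨v3, h3⟩
    (AA_e_ne _ _) (AA_e_ne _ _) (AA_e_ne _ _) h12 h13 h23 i.1 (ff.{u} i.2) (ff_ff _)

/-- the summands of `M0` -/
def NT : Fin 3 ⊕ (Fin 6 × Fin 3) → ModuleCat.{u} GG.{u}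
  | .inl a => ModuleCat.of GG.{u} (AA.{u} a).Y
  | .inr i => ModuleCat.of GG.{u} (GI.{u} ((i.1 : ℕ), i.2))

theorem count_M0 : Nat.card (Quot (fun (A B : IndSummand GG.{u} M0.{u}) =>
    Nonempty (A.1 ≃ₗ[GG.{u}] B.1))) = 21 := by
  obtain ⟨e⟩ := (Pool.Agent.W597.PT.GEND.s_DEC LL.{u} ff.{u} ff_ff ff_orth ff_sum).2
  have e2 : M0.{u} ≃ₗ[GG.{u}] ((i : Fin 3 ⊕ (Fin 6 × Fin 3)) → NT.{u} i) :=
    (LinearEquiv.prodCongr (LinearEquiv.refl GG.{u} ((a : Fin 3) → (AA.{u} a).Y)) e).trans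
      (LinearEquiv.sumPiEquivProdPi GG.{u} (Fin 3) (Fin 6 × Fin 3) (fun i => NT.{u} i)).symm
  have h := Pool.Agent.W585.PT.KS.s_KS GG.{u} M0.{u} (Fin 3 ⊕ (Fin 6 × Fin 3))
    (fun i => NT.{u} i) e2 ?_ ?_ ?_ inferInstance isArtinian_of_finite
  · rw [h]; rfl
  · intro i
    match i with
    | .inl a => exact AA_nontrivial a
    | .inr i => exact GI_nontrivial _ (lt_of_lt_of_le i.1.2 (by norm_num))
  · intro i
    match i with
    | .inl a => exact AA_end a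
    | .inr i => exact GI_end _
  · intro i j hij
    match i, j, hij with
    | .inl a, .inl b, hij => exact AA_iso a b fun h => hij (by rw [h])
    | .inl a, .inr i, _ => exact AA_GI a _
    | .inr i, .inl a, _ => exact ⟨fun e => (AA_GI.{u} a _).false e.symm⟩
    | .inr i, .inr j, hij =>
      exact GI_iso _ _ (lt_of_lt_of_le i.1.2 (by norm_num)) (lt_of_lt_of_le j.1.2 (by norm_num))
        (fun h => hij (by
          have h1 := congrArg Prod.fst h
          have h2 := congrArg Prod.snd h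
          exact congrArg Sum.inr (Prod.ext (Fin.ext h1) h2)))

theorem count_GG : Nat.card (Quot (fun (A B : IndSummand GG.{u} GG.{u}) =>
    Nonempty (A.1 ≃ₗ[GG.{u}] B.1))) = 21 := by
  obtain ⟨e⟩ := (Pool.Agent.W597.PT.GEND.s_DEC LL.{u} ff.{u} ff_ff ff_orth ff_sum).1
  have h := Pool.Agent.W585.PT.KS.s_KS GG.{u} GG.{u} (Fin 7 × Fin 3)
    (fun i => GI.{u} ((i.1 : ℕ), i.2)) e ?_ ?_ ?_ inferInstance isArtinian_of_finite
  · rw [h]; rfl
  · intro i
    exact GI_nontrivial _ i.1.2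
  · intro i
    exact GI_end _
  · intro i j hij
    exact GI_iso _ _ i.1.2 j.1.2 (fun h => hij (by
      have h1 := congrArg Prod.fst h
      have h2 := congrArg Prod.snd h
      exact Prod.ext (Fin.ext h1) h2))

end count

end Pool.Agent.W595.PT
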