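import Pool.Agent.W595.PT.Cdat

set_option autoImplicit false

/-!
Certificate for the pair (A2, A0).
-/

namespace Pool.Agent.W595.PT

/-- certificate -/
def tA2A0 : List En :=
  [⟨0, 0, 0, 4611686018427387904, 0, 0⟩,
   ⟨0, 1, 0, 3458784305029840896, 0, 0⟩,
   ⟨0, 2, 3, 8046610255354971786844307456, 0, 0⟩,
   ⟨0, 2, 4, 31412728496866524475565277184, 0, 0⟩,
   ⟨0, 2, 5, 20580753153119447070197940224, 0, 0⟩,
   ⟨0, 2, 6, 21354465677672809742009892864, 0, 0⟩,
   ⟨0, 3, 3, 3559077612945468290334982144, 0, 0⟩,
   ⟨0, 3, 4, 26151483329903658307243999232, 524288, 0⟩,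
   ⟨0, 3, 5, 0, 1, 0⟩,
   ⟨0, 3, 6, 4487532642409503496509325312, 0, 0⟩,
   ⟨0, 4, 11, 0, 383123885216472214589586756787577295904711168824967168, 0⟩,
   ⟨0, 4, 12, 0, 1149371655649416643768760270362731887714058739684212736, 0⟩,
   ⟨0, 4, 13, 0, 383123885216472214589586756787577306280978322007523328, 0⟩,
   ⟨0, 4, 14, 0, 1149371655649416643768760270362731898090352281145835520, 0⟩,
   ⟨0, 4, 15, 0, 1149371655649416643768760270362731896937457164818055168, 0⟩,
   ⟨0, 4, 16, 0, 766247770432944429179173513575154592962324051047481344, 0⟩,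
   ⟨0, 4, 17, 0, 383123885216472214589586756787577295904697974685433856, 0⟩,
   ⟨0, 4, 18, 0, 10376311133647667200, 0⟩,
   ⟨1, 2, 1, 1915619426082361072947933783937886479523426101752758272, 0, 0⟩,
   ⟨1, 3, 1, 4214362737381194360485454324663350256104454090611752960, 0, 0⟩,
   ⟨1, 4, 7, 2166395068749415481073467392, 0, 0⟩,
   ⟨1, 4, 8, 30793758477223834338115715072, 0, 0⟩,
   ⟨1, 4, 9, 8975065284819006993018650624, 21778071482940061661655974875633165533184, 0⟩,
   ⟨1, 4, 10, 34352836090169302628450697216, 11417981541647679048466287755595961091061972992, 0⟩,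
   ⟨2, 2, 1, 75885503602567541832791480735293707290719017150474200048898922255425953038874968064, 0, 0⟩,
   ⟨2, 3, 1, 166948107925648592032141257617646156039581837731043240107577628964242930019036299264, 0, 0⟩,
   ⟨2, 4, 7, 8975065284819006993018650624, 18788340662190665823115844774314696219005460391266558965658327772257693978988350487771253643053025257421012992, 0⟩,
   ⟨2, 4, 8, 18414358084370031589124472832, 744282853678701455922507579296104983840319419166929538502560660632292940002652420825002123904756684928621246321150899225744730313930047488, 0⟩,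
   ⟨2, 4, 9, 37292943683472080781336117248, 18788340662190665823115844774314696219006323109559907786131757116740478607169906876392774941372420572948987904, 0⟩,
   ⟨2, 4, 10, 35281291119633337834625040384, 744282853678701455922507579277316643178128753343813693728245963960974631028119473486019635942311894453939984113344515615510268791928913920, 0⟩,
   ⟨3, 4, 2, 15177100720513508366558296148591236999009692288453187036930093634703928850349293568, 0, 0⟩,
   ⟨4, 4, 2, 121416805764108066932466369181067418287748094015833761159689203159537735191876337664, 0, 0⟩]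

theorem kA2A0 : Chk cA2 cA0 tA2A0 where
  bd := by decide +kernel
  dr := by decide +kernel
  sup := by decide +kernel
  hh := by decide +kernel
  pp := by decide +kernel
  id := by decide +kernel
  cov := by decide +kernel

theorem pA2A0 : ∀ t ∈ tA2A0, t.p = 0 := by decide +kernel

theorem hA2A0 : TC.HomAcyc (cA2.tc cA2_ok) (cA0.tc cA0_ok) :=
  homAcyc_of_chk cA2_ok cA0_ok kA2A0 pA2A0

end Pool.Agent.W595.PT
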