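import Pool.Agent.W595.PT.LC

set_option autoImplicit false

/-!
The four twisted complexes: `cA0`, `cA1`, `cA2` (exceptional), `cZ` (phantom).
-/

namespace Pool.Agent.W595.PT

/-- coded twisted complex from lists -/
def mkCT (n : ℕ) (lab pos m : List ℕ) : CT :=
  ⟨n, fun v => lab.getD v 0, fun v => pos.getD v 0, fun v w => m.getD (v * n + w) 0⟩

/-- the twisted complex A0 -/
def cA0 : CT := mkCT 5 [0, 0, 1, 1, 2] [4, 4, 5, 5, 6]
  [0, 0, 0, 32, 0,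
   0, 0, 72, 24, 0,
   0, 0, 0, 0, 640,
   0, 0, 0, 0, 1408,
   0, 0, 0, 0, 0]

theorem cA0_ok : cA0.Ok where
  hlab := by decide +kernel
  hpos := by decide +kernel
  em := by decide +kernel
  me := by decide +kernel
  mm := by decide +kernel
  mpos := by decide +kernel

/-- the twisted complex A1 -/
def cA1 : CT := mkCT 7 [0, 0, 1, 1, 1, 2, 2] [2, 2, 3, 3, 3, 4, 4]
  [0, 0, 24, 56, 8, 0, 0,
   0, 0, 96, 80, 104, 0, 0,
   0, 0, 0, 0, 0, 1152, 384,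
   0, 0, 0, 0, 0, 256, 768,
   0, 0, 0, 0, 0, 1536, 1024,
   0, 0, 0, 0, 0, 0, 0,
   0, 0, 0, 0, 0, 0, 0]

theorem cA1_ok : cA1.Ok where
  hlab := by decide +kernel
  hpos := by decide +kernel
  em := by decide +kernel
  me := by decide +kernel
  mm := by decide +kernel
  mpos := by decide +kernel

/-- the twisted complex A2 -/
def cA2 : CT := mkCT 5 [0, 1, 1, 2, 2] [0, 1, 1, 2, 2]
  [0, 8, 16, 0, 0,
   0, 0, 0, 512, 1536,
   0, 0, 0, 128, 1024,
   0, 0, 0, 0, 0,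
   0, 0, 0, 0, 0]

theorem cA2_ok : cA2.Ok where
  hlab := by decide +kernel
  hpos := by decide +kernel
  em := by decide +kernel
  me := by decide +kernel
  mm := by decide +kernel
  mpos := by decide +kernel

/-- the twisted complex Z -/
def cZ : CT := mkCT 10 [0, 1, 1, 2, 2, 0, 1, 1, 2, 2] [0, 1, 1, 2, 2, 1, 2, 2, 3, 3]
  [0, 8, 16, 0, 0, 0, 0, 0, 0, 0,
   0, 0, 0, 512, 1536, 0, 0, 0, 0, 0,
   0, 0, 0, 128, 1024, 0, 0, 0, 0, 0,
   0, 0, 0, 0, 0, 0, 0, 0, 0, 0,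
   0, 0, 0, 0, 0, 0, 0, 0, 0, 0,
   0, 0, 0, 0, 4096, 0, 16, 104, 0, 0,
   0, 0, 0, 0, 0, 0, 0, 0, 128, 1408,
   0, 0, 0, 0, 0, 0, 0, 0, 896, 1280,
   0, 0, 0, 0, 0, 0, 0, 0, 0, 0,
   0, 0, 0, 0, 0, 0, 0, 0, 0, 0]

theorem cZ_ok : cZ.Ok where
  hlab := by decide +kernel
  hpos := by decide +kernel
  em := by decide +kernel
  me := by decide +kernel
  mm := by decide +kernel
  mpos := by decide +kernel

end Pool.Agent.W595.PT
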