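import Pool.Agent.W595.PT.Stms
import Pool.Agent.W595.PT.CA1A0
import Pool.Agent.W595.PT.CA2A0
import Pool.Agent.W595.PT.CA2A1
import Pool.Agent.W595.PT.CA0A0
import Pool.Agent.W595.PT.CA1A1
import Pool.Agent.W595.PT.CA2A2
import Pool.Agent.W595.PT.CZA0
import Pool.Agent.W595.PT.CZA1
import Pool.Agent.W595.PT.CZA2

set_option autoImplicit false

/-!
Transport of the data to the universe `u`.
-/

namespace Pool.Agent.W595.PT

universe u v

open Finset

/-! ### transport along ring equivalences -/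

/-- transport of a twisted complex along a ring equivalence -/
def TC.mp {L : Type u} {L' : Type v} [Ring L] [Ring L'] (φ : L ≃+* L') (A : TC L) : TC L' where
  n := A.n
  e v := φ (A.e v)
  pos := A.pos
  m v w := φ (A.m v w)
  hpos := A.hpos
  ee v := by rw [← map_mul, A.ee]
  em v w := by rw [← map_mul, A.em]
  me v w := by rw [← map_mul, A.me]
  mm v w := by
    have h := congrArg φ (A.mm v w)
    rw [map_sum, map_zero] at h
    rw [← h]
    exact Finset.sum_congr rfl fun z _ => (map_mul φ _ _).symm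
  mpos v w h := by rw [A.mpos v w h, map_zero]

section transport

variable {L : Type u} {L' : Type v} [Ring L] [Ring L'] (φ : L ≃+* L') (A B : TC L)

lemma dd_map (y : Fin A.n → Fin B.n → L) (v : Fin A.n) (w : Fin B.n) :
    TC.dd (A.mp φ) (B.mp φ) (fun v w => φ (y v w)) v w = φ (TC.dd A B y v w) := by
  show ∑ z : Fin A.n, φ (A.m v z) * φ (y z w) + ∑ z : Fin B.n, φ (y v z) * φ (B.m z w) =
    φ (∑ z : Fin A.n, A.m v z * y z w + ∑ z : Fin B.n, y v z * B.m z w)
  rw [map_add, map_sum, map_sum]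
  congr 1
  · exact Finset.sum_congr rfl fun z _ => (map_mul φ _ _).symm
  · exact Finset.sum_congr rfl fun z _ => (map_mul φ _ _).symm

lemma ty_map {y : Fin A.n → Fin B.n → L} (hy : TC.Ty A B y) :
    TC.Ty (A.mp φ) (B.mp φ) (fun v w => φ (y v w)) := by
  intro v w
  show φ (A.e v) * φ (y v w) * φ (B.e w) = φ (y v w)
  rw [← map_mul, ← map_mul, hy v w]

/-- back to `L` -/
def back (y : Fin A.n → Fin B.n → L') : Fin A.n → Fin B.n → L := fun v w => φ.symm (y v w)

lemma back_ty {y : Fin A.n → Fin B.n → L'} (hy : TC.Ty (A.mp φ) (B.mp φ) y) :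
    TC.Ty A B (back φ A B y) := by
  intro v w
  apply φ.injective
  have h1 : φ (A.e v) * y v w * φ (B.e w) = y v w := hy v w
  show φ (A.e v * φ.symm (y v w) * B.e w) = φ (φ.symm (y v w))
  rw [map_mul, map_mul, φ.apply_symm_apply, h1]

lemma back_back (y : Fin A.n → Fin B.n → L') : (fun v w => φ (back φ A B y v w)) = y := by
  funext v w
  exact φ.apply_symm_apply _

lemma back_dd {y : Fin A.n → Fin B.n → L'} (hy : TC.dd (A.mp φ) (B.mp φ) y = 0) :
    TC.dd A B (back φ A B y) = 0 := by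
  funext v w
  apply φ.injective
  have h1 := dd_map φ A B (back φ A B y) v w
  have h2 : TC.dd (A.mp φ) (B.mp φ) (fun v w => φ (back φ A B y v w)) v w = 0 :=
    (congrArg (fun y => TC.dd (A.mp φ) (B.mp φ) y v w) (back_back φ A B y)).trans
      (congrFun (congrFun hy v) w)
  exact (h1.symm.trans h2).trans (map_zero φ).symm

lemma HomAcyc_mp (h : TC.HomAcyc A B) : TC.HomAcyc (A.mp φ) (B.mp φ) := by
  intro y hy hd
  obtain ⟨z, hz1, hz2⟩ := h (back φ A B y) (back_ty φ A B hy) (back_dd φ A B hd)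
  refine ⟨fun v w => φ (z v w), ty_map φ A B hz1, ?_⟩
  funext v w
  refine (dd_map φ A B z v w).trans ?_
  rw [hz2]
  exact φ.apply_symm_apply _

lemma HomSelf_mp {A : TC L} {K : Type u} [CommRing K] [Algebra K L] {K' : Type v} [CommRing K']
    [Algebra K' L'] (hK : ∀ c : K, ∃ c' : K', ∀ x : L, φ (c • x) = c' • φ x)
    (h : A.HomSelf K) : (A.mp φ).HomSelf K' := by
  intro y hy hd
  obtain ⟨z, c, hz1, hz2⟩ := h (back φ A A y) (back_ty φ A A hy) (back_dd φ A A hd)
  obtain ⟨c', hc'⟩ := hK c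
  refine ⟨fun v w => φ (z v w), c', ty_map φ A A hz1, ?_⟩
  funext v w
  have h1 : y v w = φ (back φ A A y v w) := (φ.apply_symm_apply _).symm
  rw [h1, hz2]
  show φ (TC.dd A A z v w + c • A.idy v w) = TC.dd (A.mp φ) (A.mp φ) (fun v w => φ (z v w)) v w +
    c' • (A.mp φ).idy v w
  refine (map_add φ _ _).trans (congrArg₂ (· + ·) (dd_map φ A A z v w).symm ?_)
  refine (hc' _).trans (congrArg (fun x => c' • x) ?_)
  show φ (if v = w then A.e v else 0) = if v = w then φ (A.e v) else 0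
  split_ifs
  · rfl
  · rw [map_zero]

end transport

/-! ### the ring -/

/-- the ring in the universe `u` -/
abbrev LL : Type u := ULift.{u} Lam

/-- the field with two elements in the universe `u` -/
abbrev KK : Type u := ULift.{u} (ZMod 2)

/-- the ring equivalence -/
def ph : Lam ≃+* LL.{u} := (ULift.ringEquiv (R := Lam)).symm

/-- the algebra structure -/
instance instAlgKK : Algebra KK.{u} LL.{u} where
  smul c x := ⟨c.down • x.down⟩
  algebraMap := (ph.{u} : Lam →+* LL.{u}).comp ((algebraMap (ZMod 2) Lam).comp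
    (ULift.ringEquiv (R := ZMod 2) : KK.{u} →+* ZMod 2))
  commutes' c x := by
    apply ULift.down_injective
    exact Algebra.commutes c.down x.down
  smul_def' c x := by
    apply ULift.down_injective
    exact Algebra.smul_def c.down x.down

lemma ph_smul (c : ZMod 2) : ∃ c' : KK.{u}, ∀ x : Lam, ph.{u} (c • x) = c' • ph.{u} x :=
  ⟨⟨c⟩, fun _ => rfl⟩

instance finLam : Finite Lam := by
  have h : Function.Injective (fun f : Lam => (f.a0, f.a1, f.a2, f.x, f.y, f.w)) := by
    intro f g hfg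
    simp only [Prod.mk.injEq] at hfg
    obtain ⟨h0, h1, h2, h3, h4, h5⟩ := hfg
    exact Lam.ext h0 h1 h2 h3 h4 h5
  exact Finite.of_injective _ h

instance finGam (L : Type u) [Ring L] [Finite L] : Finite (Gam L) := by
  have h : Function.Injective (fun f : Gam L => (f.a, f.b)) := by
    intro f g hfg
    simp only [Prod.mk.injEq] at hfg
    exact Gam.ext hfg.1 hfg.2
  exact Finite.of_injective _ h

instance finY {L : Type u} [Ring L] [Finite L] (A : TC L) : Finite A.Y := by
  have h : Function.Injective (fun y : A.Y => y.c) := by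
    intro x y hxy
    exact TC.Y.ext fun v => congrFun hxy v
  exact Finite.of_injective _ h

lemma LL_two : (2 : LL.{u}) = 0 := by
  apply ULift.down_injective
  exact Lam.two_eq_zero

/-! ### the idempotents -/

/-- the three idempotents -/
def ff (i : Fin 3) : LL.{u} := ⟨lam (2 ^ (i : ℕ))⟩

lemma lam_prod_zero {l l' : ℕ} (hl : l < 3) (hl' : l' < l) (x : Lam) :
    lam (2 ^ l) * x * lam (2 ^ l') = 0 := by
  apply lam_ext
  intro c hc
  rw [co_prod hl (by omega) x hc, co_zero]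
  have h1 : TT l l' = [] := by
    have h2 : ∀ l < 3, ∀ l' < l, TT l l' = [] := by decide +kernel
    exact h2 l hl l' hl'
  rw [h1]
  simp

lemma ff_ff (i : Fin 3) : ff.{u} i * ff.{u} i = ff.{u} i := by
  apply ULift.down_injective
  show lam (2 ^ (i : ℕ)) * lam (2 ^ (i : ℕ)) = lam (2 ^ (i : ℕ))
  rw [lam_sc (by omega) (by omega), sc_self i.2]

lemma ff_zero (i j : Fin 3) (h : j < i) (x : LL.{u}) : ff.{u} i * x * ff.{u} j = 0 := by
  apply ULift.down_injective
  exact lam_prod_zero i.2 h x.down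

lemma ff_orth (i j : Fin 3) (h : i ≠ j) : ff.{u} i * ff.{u} j = 0 := by
  apply ULift.down_injective
  show lam (2 ^ (i : ℕ)) * lam (2 ^ (j : ℕ)) = 0
  rw [lam_sc (by omega) (by omega)]
  have h1 : ∀ i < 3, ∀ j < 3, i ≠ j → sc i j = 0 := by decide +kernel
  rw [h1 i i.2 j j.2 (fun h2 => h (Fin.ext h2)), lam_zero]

lemma ff_sum : ff.{u} 0 + ff.{u} 1 + ff.{u} 2 = 1 := by
  apply ULift.down_injective
  show lam (2 ^ 0) + lam (2 ^ 1) + lam (2 ^ 2) = 1
  rw [e0_eq, e1_eq, e2_eq]
  ext i <;> simp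

lemma ff_ne (i : Fin 3) : ff.{u} i ≠ 0 := by
  intro h
  have h1 : lam (2 ^ (i : ℕ)) = 0 := congrArg ULift.down h
  have h2 := congrArg (co (i : ℕ)) h1
  rw [co_lam (by omega), co_zero, bt_two_pow, if_pos rfl] at h2
  exact one_ne_zero h2

lemma ff_end (i : Fin 3) (x : LL.{u}) : ff.{u} i * x * ff.{u} i = 0 ∨
    ff.{u} i * x * ff.{u} i = ff.{u} i := by
  have h1 : ∀ c < 19, co c (lam (2 ^ (i : ℕ)) * x.down * lam (2 ^ (i : ℕ))) =
      if c = (i : ℕ) then co c x.down else 0 := by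
    intro c hc
    rw [co_prod i.2 i.2 _ hc]
    have h2 : TT (i : ℕ) (i : ℕ) = [(i : ℕ)] := by simp [TT]
    rw [h2]
    simp
  have h3 : ∀ a : ZMod 2, a = 0 ∨ a = 1 := by decide
  rcases h3 (co (i : ℕ) x.down) with h | h
  · left
    apply ULift.down_injective
    apply lam_ext
    intro c hc
    refine (h1 c hc).trans ?_
    show _ = co c 0
    rw [co_zero]
    split_ifs with h4
    · rw [h4, h]
    · rfl
  · right
    apply ULift.down_injective
    apply lam_ext
    intro c hc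
    refine (h1 c hc).trans ?_
    show _ = co c (lam (2 ^ (i : ℕ)))
    rw [co_lam hc, bt_two_pow]
    by_cases h4 : c = (i : ℕ)
    · rw [if_pos h4, if_pos h4.symm, h4, h]
    · rw [if_neg h4, if_neg (fun h5 => h4 h5.symm)]

/-! ### the objects -/

/-- the coded exceptional objects -/
def cAA : Fin 3 → CT
  | 0 => cA0
  | 1 => cA1
  | 2 => cA2

lemma cAA_ok : ∀ a : Fin 3, (cAA a).Ok
  | 0 => cA0_ok
  | 1 => cA1_ok
  | 2 => cA2_ok

/-- the exceptional objects -/
def AA (a : Fin 3) : TC LL.{u} := ((cAA a).tc (cAA_ok a)).mp ph.{u}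

/-- the phantom -/
def ZZ : TC LL.{u} := (cZ.tc cZ_ok).mp ph.{u}

lemma AA_pos (a : Fin 3) (v : Fin (AA.{u} a).n) :
    (AA.{u} a).pos v = 4 - 2 * (a : ℕ) + (cAA a).lab v := by
  have h : ∀ a : Fin 3, ∀ v < (cAA a).n, (cAA a).pos v = 4 - 2 * (a : ℕ) + (cAA a).lab v := by
    decide +kernel
  exact h a v v.2

lemma AA_lab (a : Fin 3) (v : Fin (AA.{u} a).n) : (cAA a).lab v < 3 := (cAA_ok a).hlab v v.2

lemma AA_hom (a b : Fin 3) (h : b < a) : TC.HomAcyc (AA.{u} a) (AA.{u} b) := by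
  have h2 : TC.HomAcyc ((cAA a).tc (cAA_ok a)) ((cAA b).tc (cAA_ok b)) := by
    match a, b, h with
    | 1, 0, _ => exact hA1A0
    | 2, 0, _ => exact hA2A0
    | 2, 1, _ => exact hA2A1
  exact HomAcyc_mp ph.{u} _ _ h2

lemma AA_self (a : Fin 3) : (AA.{u} a).HomSelf KK.{u} := by
  have h2 : ((cAA a).tc (cAA_ok a)).HomSelf (ZMod 2) := by
    match a with
    | 0 => exact sA0
    | 1 => exact sA1
    | 2 => exact sA2
  exact HomSelf_mp ph.{u} ph_smul h2

lemma ZZ_hom (a : Fin 3) : TC.HomAcyc ZZ.{u} (AA.{u} a) := by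
  have h2 : TC.HomAcyc (cZ.tc cZ_ok) ((cAA a).tc (cAA_ok a)) := by
    match a with
    | 0 => exact hZA0
    | 1 => exact hZA1
    | 2 => exact hZA2
  exact HomAcyc_mp ph.{u} _ _ h2

lemma AA_e (a : Fin 3) (v : Fin (AA.{u} a).n) :
    (AA.{u} a).e v = ff.{u} ⟨(cAA a).lab v, (cAA_ok a).hlab v v.2⟩ := rfl

lemma AA_e_ne (a : Fin 3) (v : Fin (AA.{u} a).n) : (AA.{u} a).e v ≠ 0 := by
  rw [AA_e]; exact ff_ne _

end Pool.Agent.W595.PT
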