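import Pool.Agent.W595.PT.FA
import Pool.Agent.W136.PT.EXT
import Pool.Agent.W585.PT.TILT
import Pool.Agent.W585.PT.KS
import Pool.Agent.W585.PT.BR
import Pool.Agent.W585.PT.ENDY
import Pool.Agent.W595.PT.LidP
import Pool.Agent.W597.PT.GEND

set_option autoImplicit false

/-!
The module `TT0`, its extensions, its summands, and the phantom.
-/

namespace Pool.Agent.W595.PT

universe u v w

open CategoryTheory Gam

section general

variable {L : Type u} [Ring L]

lemma D_zero (A : TC L) (W : Type u) [AddCommGroup W] [Module (Gam L) W] :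
    A.D (0 : Fin A.n → W) = 0 := by
  funext v
  simp [TC.D]

lemma IsE_zero (A : TC L) (W : Type u) [AddCommGroup W] [Module (Gam L) W] (i : ℕ) :
    A.IsE i (0 : Fin A.n → W) := by
  intro v
  simp

lemma exact_of_vanish (A : TC L) (W : Type u) [AddCommGroup W] [Module (Gam L) W] (i : ℕ)
    (h : ∀ w : Fin A.n → W, A.IsE (i + 1) w → w = 0) : A.ExactAt W i := by
  intro w hw _
  refine ⟨0, IsE_zero A W i, ?_⟩
  rw [D_zero, h w hw]

lemma exact_of_large (A : TC L) (W : Type u) [AddCommGroup W] [Module (Gam L) W] (i : ℕ)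
    (hi : 6 ≤ i) : A.ExactAt W i := by
  refine exact_of_vanish A W i fun w hw => ?_
  funext v
  rw [← hw v, po_large (by omega), mul_zero, zero_smul]
  rfl

lemma exact_of_pos (A B : TC L) (i : ℕ) (h : ∀ v w, B.pos w ≠ A.pos v + (i + 1)) :
    A.ExactAt B.Y i := by
  refine exact_of_vanish A B.Y i fun w hw => ?_
  funext v
  rw [← hw v]
  ext z
  rw [TC.Y.c_smul]
  have h1 : aN (io (A.e v) * po (A.pos v + (i + 1)) : Gam L) (B.pos z) = 0 := by
    rw [aN_mul, aN_po _ (B.hpos z), if_neg (h v z), mul_zero]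
  rw [h1]
  simp

lemma acyc_prod (A : TC L) (W1 W2 : Type u) [AddCommGroup W1] [Module (Gam L) W1]
    [AddCommGroup W2] [Module (Gam L) W2] (h1 : A.Acyc W1) (h2 : A.Acyc W2) :
    A.Acyc (W1 × W2) := by
  intro w hw hd
  obtain ⟨z1, a1, b1⟩ := h1 (fun v => (w v).1) (fun v => congrArg Prod.fst (hw v)) (by
    funext v
    have := congrArg Prod.fst (congrFun hd v)
    simpa [TC.D, Prod.fst_sum] using this)
  obtain ⟨z2, a2, b2⟩ := h2 (fun v => (w v).2) (fun v => congrArg Prod.snd (hw v)) (by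
    funext v
    have := congrArg Prod.snd (congrFun hd v)
    simpa [TC.D, Prod.snd_sum] using this)
  refine ⟨fun v => (z1 v, z2 v), fun v => Prod.ext (a1 v) (a2 v), ?_⟩
  funext v
  have e1 := congrFun b1 v
  have e2 := congrFun b2 v
  apply Prod.ext
  · rw [← e1]
    simp [TC.D, Prod.fst_sum]
  · rw [← e2]
    simp [TC.D, Prod.snd_sum]

lemma acyc_pi (A : TC L) {ι : Type} (W : ι → Type u) [∀ a, AddCommGroup (W a)]
    [∀ a, Module (Gam L) (W a)] (h : ∀ a, A.Acyc (W a)) : A.Acyc ((a : ι) → W a) := by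
  intro w hw hd
  have h1 : ∀ a, ∃ z : Fin A.n → W a, A.IsF z ∧ A.D z = fun v => w v a := by
    intro a
    refine h a (fun v => w v a) (fun v => congrFun (hw v) a) ?_
    funext v
    have := congrFun (congrFun hd v) a
    simpa [TC.D, Finset.sum_apply] using this
  choose z hz1 hz2 using h1
  refine ⟨fun v a => z a v, fun v => funext fun a => hz1 a v, ?_⟩
  funext v a
  have := congrFun (hz2 a) v
  rw [← this]
  simp [TC.D, Finset.sum_apply]

end general

section extadd

variable {C : Type u} [Category.{v} C] [Abelian C] [HasExt.{w} C]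

lemma ext_left {T Y : C} {i : ℕ} {ι : Type} [Fintype ι] (X : ι → C) (f : ∀ a, T ⟶ X a)
    (g : ∀ a, X a ⟶ T) (h : ∑ a, f a ≫ g a = 𝟙 T)
    (hX : ∀ a, Subsingleton (Abelian.Ext.{w} (X a) Y i)) : Subsingleton (Abelian.Ext.{w} T Y i) := by
  refine subsingleton_of_forall_eq 0 fun x => ?_
  rw [← Abelian.Ext.mk₀_id_comp x, ← h, Abelian.Ext.mk₀_sum, Abelian.Ext.sum_comp]
  refine Finset.sum_eq_zero fun a _ => ?_
  rw [← Abelian.Ext.mk₀_comp_mk₀_assoc,
    Subsingleton.elim ((Abelian.Ext.mk₀ (g a)).comp x (zero_add i)) 0, Abelian.Ext.comp_zero]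

lemma ext_right {T Y : C} {i : ℕ} {ι : Type} [Fintype ι] (X : ι → C) (f : ∀ a, Y ⟶ X a)
    (g : ∀ a, X a ⟶ Y) (h : ∑ a, f a ≫ g a = 𝟙 Y)
    (hX : ∀ a, Subsingleton (Abelian.Ext.{w} T (X a) i)) : Subsingleton (Abelian.Ext.{w} T Y i) := by
  refine subsingleton_of_forall_eq 0 fun x => ?_
  rw [← Abelian.Ext.comp_mk₀_id x, ← h, Abelian.Ext.mk₀_sum, Abelian.Ext.comp_sum]
  refine Finset.sum_eq_zero fun a _ => ?_
  rw [← Abelian.Ext.mk₀_comp_mk₀, ← Abelian.Ext.comp_assoc_of_second_deg_zero,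
    Subsingleton.elim (x.comp (Abelian.Ext.mk₀ (f a)) (add_zero i)) 0, Abelian.Ext.zero_comp]

end extadd

section modadd

variable {S : Type u} [Ring S]

/-- summands of a product of a finite product and a module -/
def XX {ι : Type} (N : ι → Type u) [∀ a, AddCommGroup (N a)] [∀ a, Module S (N a)] (P : Type u)
    [AddCommGroup P] [Module S P] : Option ι → ModuleCat.{u} S
  | none => ModuleCat.of S P
  | some a => ModuleCat.of S (N a)

variable {ι : Type} [Fintype ι] [DecidableEq ι] (N : ι → Type u) [∀ a, AddCommGroup (N a)]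
  [∀ a, Module S (N a)] (P : Type u) [AddCommGroup P] [Module S P]

/-- projections -/
def prj : ∀ a : Option ι, ModuleCat.of S (((a : ι) → N a) × P) ⟶ XX N P a
  | none => ModuleCat.ofHom (LinearMap.snd S _ _)
  | some a => ModuleCat.ofHom (LinearMap.proj a ∘ₗ LinearMap.fst S _ _)

/-- inclusions -/
def inj : ∀ a : Option ι, XX N P a ⟶ ModuleCat.of S (((a : ι) → N a) × P)
  | none => ModuleCat.ofHom (LinearMap.inr S _ _)
  | some a => ModuleCat.ofHom (LinearMap.inl S _ _ ∘ₗ LinearMap.single S N a)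

lemma prj_inj : ∑ a, prj (S := S) N P a ≫ inj (S := S) N P a = 𝟙 _ := by
  rw [Fintype.sum_option]
  apply ModuleCat.hom_ext
  apply LinearMap.ext
  intro x
  rw [ModuleCat.hom_add, ModuleCat.hom_sum, LinearMap.add_apply, LinearMap.sum_apply]
  show (0, x.2) + ∑ a, ((Pi.single a (x.1 a) : (a : ι) → N a), (0 : P)) = x
  apply Prod.ext
  · rw [Prod.fst_add, Prod.fst_sum, zero_add]
    exact Finset.univ_sum_single x.1
  · rw [Prod.snd_add, Prod.snd_sum, Finset.sum_const_zero, add_zero]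

end modadd

end Pool.Agent.W595.PT
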