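import Mathlib

set_option autoImplicit false

/-!
The algebra `Gam L = L ⊗ (linear quiver with 7 vertices, rad^2 = 0)`: left modules over it are
complexes of left `L`-modules in positions `0, ..., 6`.
An element has a diagonal part `a : Fin 7 → L` and an off diagonal part `b : Fin 6 → L`
(`b s` maps position `s` to position `s + 1`).
-/

namespace Pool.Agent.W595.PT

universe u

/-- elements of the algebra -/
@[ext] structure Gam (L : Type u) where
  a : Fin 7 → L
  b : Fin 6 → L

namespace Gam

variable {L : Type u} [Ring L]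

instance : Zero (Gam L) := ⟨⟨0, 0⟩⟩
instance : One (Gam L) := ⟨⟨1, 0⟩⟩
instance : Add (Gam L) := ⟨fun x y => ⟨x.a + y.a, x.b + y.b⟩⟩
instance : Neg (Gam L) := ⟨fun x => ⟨-x.a, -x.b⟩⟩
instance : Sub (Gam L) := ⟨fun x y => ⟨x.a - y.a, x.b - y.b⟩⟩
instance : Mul (Gam L) :=
  ⟨fun x y => ⟨fun p => x.a p * y.a p, fun s => x.a s.succ * y.b s + x.b s * y.a s.castSucc⟩⟩

@[simp] lemma zero_a : (0 : Gam L).a = 0 := rfl
@[simp] lemma zero_b : (0 : Gam L).b = 0 := rfl
@[simp] lemma one_a : (1 : Gam L).a = 1 := rfl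
@[simp] lemma one_b : (1 : Gam L).b = 0 := rfl
@[simp] lemma add_a (x y : Gam L) : (x + y).a = x.a + y.a := rfl
@[simp] lemma add_b (x y : Gam L) : (x + y).b = x.b + y.b := rfl
@[simp] lemma neg_a (x : Gam L) : (-x).a = -x.a := rfl
@[simp] lemma neg_b (x : Gam L) : (-x).b = -x.b := rfl
@[simp] lemma sub_a (x y : Gam L) : (x - y).a = x.a - y.a := rfl
@[simp] lemma sub_b (x y : Gam L) : (x - y).b = x.b - y.b := rfl
@[simp] lemma mul_a (x y : Gam L) (p : Fin 7) : (x * y).a p = x.a p * y.a p := rfl
@[simp] lemma mul_b (x y : Gam L) (s : Fin 6) :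
    (x * y).b s = x.a s.succ * y.b s + x.b s * y.a s.castSucc := rfl

instance : AddCommGroup (Gam L) where
  add_assoc x y z := by ext <;> simp [add_assoc]
  zero_add x := by ext <;> simp
  add_zero x := by ext <;> simp
  neg_add_cancel x := by ext <;> simp
  add_comm x y := by ext <;> simp [add_comm]
  sub_eq_add_neg x y := by ext <;> simp [sub_eq_add_neg]
  nsmul := nsmulRec
  zsmul := zsmulRec

instance : Ring (Gam L) where
  left_distrib x y z := by ext <;> simp [mul_add]; abel
  right_distrib x y z := by ext <;> simp [add_mul]; abel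
  zero_mul x := by ext <;> simp
  mul_zero x := by ext <;> simp
  mul_assoc x y z := by
    ext
    · simp [mul_assoc]
    · simp [mul_add, add_mul, mul_assoc, add_assoc]
  one_mul x := by ext <;> simp
  mul_one x := by ext <;> simp
  zsmul := zsmulRec
  neg_add_cancel x := neg_add_cancel x
  sub_eq_add_neg x y := sub_eq_add_neg x y

/-- the diagonal embedding of `L` -/
def io : L →+* Gam L where
  toFun x := ⟨fun _ => x, 0⟩
  map_one' := rfl
  map_mul' x y := by ext <;> simp
  map_zero' := rfl
  map_add' x y := by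
    ext
    · rfl
    · simp

@[simp] lemma io_a (x : L) (p : Fin 7) : (io x).a p = x := rfl
@[simp] lemma io_b (x : L) : (io x).b = 0 := rfl

/-- the differential, as an element of the algebra -/
def de : Gam L := ⟨0, fun _ => 1⟩

@[simp] lemma de_a : (de : Gam L).a = 0 := rfl
@[simp] lemma de_b (s : Fin 6) : (de : Gam L).b s = 1 := rfl

/-- the idempotent of position `p` (zero if `p > 6`) -/
def po (p : ℕ) : Gam L := ⟨fun q => if (q : ℕ) = p then 1 else 0, 0⟩

@[simp] lemma po_a (p : ℕ) (q : Fin 7) : (po p : Gam L).a q = if (q : ℕ) = p then 1 else 0 := rfl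
@[simp] lemma po_b (p : ℕ) : (po p : Gam L).b = 0 := rfl

lemma io_de (x : L) : io x * de = de * io x := by ext <;> simp
lemma io_po (x : L) (p : ℕ) : io x * po p = po p * io x := by ext <;> simp
lemma de_de : (de : Gam L) * de = 0 := by ext <;> simp
lemma po_po (p : ℕ) : (po p : Gam L) * po p = po p := by
  ext q
  · by_cases h : (q : ℕ) = p <;> simp [h]
  · simp
lemma po_po_ne {p q : ℕ} (h : p ≠ q) : (po p : Gam L) * po q = 0 := by
  ext x
  · by_cases h1 : (x : ℕ) = p
    · have h2 : ¬ (x : ℕ) = q := by omega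
      simp [h2]
    · simp [h1]
  · simp
lemma po_large {p : ℕ} (h : 7 ≤ p) : (po p : Gam L) = 0 := by
  ext q
  · have := q.2
    simp; omega
  · simp
lemma po_de (p : ℕ) : (po (p + 1) : Gam L) * de = de * po p := by
  ext q
  · simp
  · simp
lemma po_zero_de : (po 0 : Gam L) * de = 0 := by
  ext q <;> simp
lemma sum_po : (∑ p ∈ Finset.range 7, (po p : Gam L)) = 1 := by
  have h1 : ∀ s : Finset ℕ, (∑ p ∈ s, (po p : Gam L)) =
      ⟨fun q => if (q : ℕ) ∈ s then 1 else 0, 0⟩ := by
    intro s
    induction s using Finset.induction_on with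
    | empty => ext <;> simp
    | insert x s hx ih =>
      rw [Finset.sum_insert hx, ih]
      ext q
      · by_cases h : (q : ℕ) = x
        · simp [h, hx]
        · simp [h]
      · simp
  rw [h1]
  ext q
  · have := q.2
    simp
  · simp

/-- the diagonal part, as a function on the naturals -/
def aN (x : Gam L) (p : ℕ) : L := if h : p < 7 then x.a ⟨p, h⟩ else 0
/-- the off diagonal part, as a function on the naturals -/
def bN (x : Gam L) (p : ℕ) : L := if h : p < 6 then x.b ⟨p, h⟩ else 0

@[simp] lemma aN_zero (p : ℕ) : aN (0 : Gam L) p = 0 := by simp [aN]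
@[simp] lemma bN_zero (p : ℕ) : bN (0 : Gam L) p = 0 := by simp [bN]
@[simp] lemma aN_add (x y : Gam L) (p : ℕ) : aN (x + y) p = aN x p + aN y p := by
  by_cases h : p < 7 <;> simp [aN, h]
@[simp] lemma bN_add (x y : Gam L) (p : ℕ) : bN (x + y) p = bN x p + bN y p := by
  by_cases h : p < 6 <;> simp [bN, h]
@[simp] lemma aN_mul (x y : Gam L) (p : ℕ) : aN (x * y) p = aN x p * aN y p := by
  by_cases h : p < 7 <;> simp [aN, h]
@[simp] lemma bN_mul (x y : Gam L) (p : ℕ) :
    bN (x * y) p = aN x (p + 1) * bN y p + bN x p * aN y p := by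
  by_cases h : p < 6
  · have h1 : p < 7 := by omega
    have h2 : p + 1 < 7 := by omega
    simp [aN, bN, h, h1]
  · simp [bN, h]
lemma aN_one {p : ℕ} (h : p < 7) : aN (1 : Gam L) p = 1 := by simp [aN, h]
@[simp] lemma bN_one (p : ℕ) : bN (1 : Gam L) p = 0 := by simp [bN]
@[simp] lemma aN_de (p : ℕ) : aN (de : Gam L) p = 0 := by simp [aN]
@[simp] lemma bN_de {p : ℕ} (h : p < 6) : bN (de : Gam L) p = 1 := by simp [bN, h]
@[simp] lemma bN_io (x : L) (p : ℕ) : bN (io x) p = 0 := by simp [bN]
lemma aN_io (x : L) {p : ℕ} (h : p < 7) : aN (io x) p = x := by simp [aN, h]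
@[simp] lemma bN_po (q p : ℕ) : bN (po q : Gam L) p = 0 := by simp [bN]
lemma aN_po (q : ℕ) {p : ℕ} (h : p < 7) : aN (po q : Gam L) p = if p = q then 1 else 0 := by
  simp [aN, h]

lemma ext_aN_bN {x y : Gam L} (ha : ∀ p < 7, aN x p = aN y p) (hb : ∀ p < 6, bN x p = bN y p) :
    x = y := by
  ext q
  · have := ha q q.2
    simpa [aN] using this
  · have := hb q q.2
    simpa [bN] using this

section algebra
variable (K : Type u) [CommRing K] [Algebra K L]

instance : Algebra K (Gam L) where
  smul k x := ⟨k • x.a, k • x.b⟩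
  algebraMap := io.comp (algebraMap K L)
  commutes' k x := by
    ext q
    · exact Algebra.commutes k (x.a q)
    · simp [Algebra.commutes]
  smul_def' k x := by
    ext q
    · exact Algebra.smul_def k (x.a q)
    · show k • x.b q = _
      simp [Algebra.smul_def]

end algebra

end Gam

end Pool.Agent.W595.PT
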