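import Pool.Agent.W595.PT.Gam

set_option autoImplicit false

/-!
Twisted complexes over a ring `L`, the `Gam L`-modules attached to them, and the
complexes `E_i(W)` computing extensions.
-/

namespace Pool.Agent.W595.PT

universe u

open Gam

/-- A complex of projective `L`-modules `⊕_{pos v = p} L (e v)`, `p = 0, ..., 6`, with
differential given by the matrix `m` (acting by right multiplication on row vectors). -/
structure TC (L : Type u) [Ring L] where
  n : ℕ
  e : Fin n → L
  pos : Fin n → ℕ
  m : Fin n → Fin n → L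
  hpos : ∀ v, pos v < 7
  ee : ∀ v, e v * e v = e v
  em : ∀ v w, e v * m v w = m v w
  me : ∀ v w, m v w * e w = m v w
  mm : ∀ v w, ∑ z, m v z * m z w = 0
  mpos : ∀ v w, pos w ≠ pos v + 1 → m v w = 0

namespace TC

variable {L : Type u} [Ring L] (A : TC L)

/-- the underlying group of the `Gam L`-module of `A` -/
def Ysub : AddSubgroup (Fin A.n → L) where
  carrier := {y | ∀ v, y v * A.e v = y v}
  zero_mem' := by intro v; simp
  add_mem' := by
    intro x y hx hy v
    simp only [Pi.add_apply, add_mul]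
    rw [hx v, hy v]
  neg_mem' := by
    intro x hx v
    simp only [Pi.neg_apply, neg_mul]
    rw [hx v]

/-- the `Gam L`-module of `A` -/
def Y : Type u := A.Ysub

instance : AddCommGroup A.Y := inferInstanceAs (AddCommGroup A.Ysub)

/-- coordinates of an element of `A.Y` -/
def Y.c {A : TC L} (y : A.Y) : Fin A.n → L := y.1

lemma Y.c_e {A : TC L} (y : A.Y) (v : Fin A.n) : y.c v * A.e v = y.c v := y.2 v

@[ext] lemma Y.ext {A : TC L} {x y : A.Y} (h : ∀ v, x.c v = y.c v) : x = y :=
  Subtype.ext (funext h)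

@[simp] lemma Y.c_zero (v : Fin A.n) : (0 : A.Y).c v = 0 := rfl
@[simp] lemma Y.c_add (x y : A.Y) (v : Fin A.n) : (x + y).c v = x.c v + y.c v := rfl
@[simp] lemma Y.c_neg (x : A.Y) (v : Fin A.n) : (-x).c v = -x.c v := rfl
@[simp] lemma Y.c_sub (x y : A.Y) (v : Fin A.n) : (x - y).c v = x.c v - y.c v := rfl
@[simp] lemma Y.c_sum {ι : Type*} (s : Finset ι) (f : ι → A.Y) (v : Fin A.n) :
    (∑ i ∈ s, f i).c v = ∑ i ∈ s, (f i).c v := by
  classical
  induction s using Finset.induction_on with
  | empty => simp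
  | insert x s hx ih => rw [Finset.sum_insert hx, Finset.sum_insert hx, Y.c_add, ih]

/-- constructor -/
def Y.mk {A : TC L} (f : Fin A.n → L) (h : ∀ v, f v * A.e v = f v) : A.Y := ⟨f, h⟩

@[simp] lemma Y.c_mk {A : TC L} (f : Fin A.n → L) (h : ∀ v, f v * A.e v = f v) (v : Fin A.n) :
    (Y.mk f h).c v = f v := rfl

instance : SMul (Gam L) A.Y where
  smul g y := Y.mk (fun v => aN g (A.pos v) * y.c v +
      ∑ w, bN g (A.pos w) * y.c w * A.m w v) (by
    intro v
    rw [add_mul, mul_assoc, y.c_e, Finset.sum_mul]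
    congr 1
    refine Finset.sum_congr rfl fun w _ => ?_
    rw [mul_assoc, A.me])

lemma Y.c_smul (g : Gam L) (y : A.Y) (v : Fin A.n) :
    (g • y).c v = aN g (A.pos v) * y.c v + ∑ w, bN g (A.pos w) * y.c w * A.m w v := rfl

instance : Module (Gam L) A.Y where
  one_smul y := by
    ext v
    rw [Y.c_smul, aN_one (A.hpos v)]
    simp
  zero_smul y := by
    ext v
    rw [Y.c_smul]
    simp
  smul_zero g := by
    ext v
    rw [Y.c_smul]
    simp
  smul_add g x y := by
    ext v
    simp only [Y.c_smul, Y.c_add, mul_add, add_mul, Finset.sum_add_distrib]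
    abel
  add_smul g h y := by
    ext v
    simp only [Y.c_smul, Y.c_add, aN_add, bN_add, add_mul, Finset.sum_add_distrib]
    abel
  mul_smul g h y := by
    ext v
    simp only [Y.c_smul, aN_mul, bN_mul]
    have h1 : ∀ w, (aN g (A.pos w + 1) * bN h (A.pos w) + bN g (A.pos w) * aN h (A.pos w)) *
        y.c w * A.m w v = aN g (A.pos v) * (bN h (A.pos w) * y.c w * A.m w v) +
          bN g (A.pos w) * (aN h (A.pos w) * y.c w) * A.m w v := by
      intro w
      by_cases hw : A.pos v = A.pos w + 1
      · rw [hw]; simp only [add_mul, mul_assoc]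
      · rw [A.mpos w v hw]; simp
    have h2 : ∑ z, bN g (A.pos z) * (∑ w, bN h (A.pos w) * y.c w * A.m w z) * A.m z v = 0 := by
      have h3 : ∀ z w, bN g (A.pos z) * (bN h (A.pos w) * y.c w * A.m w z) * A.m z v =
          bN g (A.pos w + 1) * bN h (A.pos w) * y.c w * (A.m w z * A.m z v) := by
        intro z w
        by_cases hw : A.pos z = A.pos w + 1
        · rw [hw]; simp only [mul_assoc]
        · rw [A.mpos w z hw]; simp
      simp only [Finset.mul_sum, Finset.sum_mul, h3]
      rw [Finset.sum_comm]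
      refine Finset.sum_eq_zero fun w _ => ?_
      rw [← Finset.mul_sum, A.mm]
      simp
    have h4 : ∑ w, bN g (A.pos w) * (aN h (A.pos w) * y.c w +
        ∑ z, bN h (A.pos z) * y.c z * A.m z w) * A.m w v =
        ∑ w, bN g (A.pos w) * (aN h (A.pos w) * y.c w) * A.m w v + 0 := by
      rw [← h2, ← Finset.sum_add_distrib]
      refine Finset.sum_congr rfl fun w _ => ?_
      rw [mul_add, add_mul]
    rw [Finset.sum_congr rfl (fun w _ => h1 w), Finset.sum_add_distrib, h4, mul_add,
      Finset.mul_sum, mul_assoc, add_zero, add_assoc]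

section E

variable {W : Type u} [AddCommGroup W] [Module (Gam L) W]

/-- `w` is an element of `E_i(W)`: the component `w v` is at the vertex `(pos v + i, e v)` -/
def IsE (i : ℕ) (w : Fin A.n → W) : Prop :=
  ∀ v, (io (A.e v) * po (A.pos v + i)) • w v = w v

/-- the differential -/
def D (w : Fin A.n → W) : Fin A.n → W := fun v => (de : Gam L) • w v + ∑ z, io (A.m v z) • w z

/-- `w` is compatible with the idempotents `e v` -/
def IsF (w : Fin A.n → W) : Prop := ∀ v, io (A.e v) • w v = w v

end E

/-- exactness of `E_i(W) → E_{i+1}(W) → E_{i+2}(W)` -/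
def ExactAt (W : Type u) [AddCommGroup W] [Module (Gam L) W] (i : ℕ) : Prop :=
  ∀ w : Fin A.n → W, A.IsE (i + 1) w → A.D w = 0 → ∃ z : Fin A.n → W, A.IsE i z ∧ A.D z = w

/-- acyclicity of the total differential module -/
def Acyc (W : Type u) [AddCommGroup W] [Module (Gam L) W] : Prop :=
  ∀ w : Fin A.n → W, A.IsF w → A.D w = 0 → ∃ z : Fin A.n → W, A.IsF z ∧ A.D z = w

/-- the left ideal `Gam L * (1 - po 6)` -/
def _root_.Pool.Agent.W595.PT.Lid (L : Type u) [Ring L] : Submodule (Gam L) (Gam L) where
  carrier := {x | x * po 6 = 0}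
  zero_mem' := by simp
  add_mem' := by
    intro x y hx hy
    simp only [Set.mem_ofPred_eq] at *
    rw [add_mul, hx, hy, add_zero]
  smul_mem' := by
    intro c x hx
    simp only [Set.mem_ofPred_eq, smul_eq_mul] at *
    rw [mul_assoc, hx, mul_zero]

/-- typed families `y v w ∈ e v L e w` -/
def Ty (A B : TC L) (y : Fin A.n → Fin B.n → L) : Prop :=
  ∀ v w, A.e v * y v w * B.e w = y v w

/-- the differential of typed families -/
def dd (A B : TC L) (y : Fin A.n → Fin B.n → L) : Fin A.n → Fin B.n → L :=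
  fun v w => ∑ z, A.m v z * y z w + ∑ z, y v z * B.m z w

/-- the total Hom complex of `A`, `B` is acyclic -/
def HomAcyc (A B : TC L) : Prop :=
  ∀ y : Fin A.n → Fin B.n → L, Ty A B y → dd A B y = 0 → ∃ z, Ty A B z ∧ dd A B z = y

/-- the identity of `A` as a typed family -/
def idy : Fin A.n → Fin A.n → L := fun v w => if v = w then A.e v else 0

/-- the cohomology of the total Hom complex of `A` with itself is `K · id` -/
def HomSelf (K : Type u) [CommRing K] [Algebra K L] : Prop :=
  ∀ y : Fin A.n → Fin A.n → L, Ty A A y → dd A A y = 0 →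
    ∃ (z : Fin A.n → Fin A.n → L) (c : K), Ty A A z ∧ y = dd A A z + c • A.idy

end TC

end Pool.Agent.W595.PT
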