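import Pool.Agent.W595.PT.Lam
import Pool.Agent.W595.PT.TC

set_option autoImplicit false

/-!
Bit-coded linear algebra over `ZMod 2` for typed families, with a checker for
contracting homotopies.
-/

namespace Pool.Agent.W595.PT

open Finset

/-! ### xor sums -/

/-- xor of `f 0, ..., f (k-1)` -/
def xs (k : ℕ) (f : ℕ → ℕ) : ℕ :=
  match k with
  | 0 => 0
  | k + 1 => f k ^^^ xs k f

lemma map_xs {M : Type*} [AddCommMonoid M] (φ : ℕ → M) (h0 : φ 0 = 0)
    (hx : ∀ m n, φ (m ^^^ n) = φ m + φ n) (k : ℕ) (f : ℕ → ℕ) :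
    φ (xs k f) = ∑ i ∈ range k, φ (f i) := by
  induction k with
  | zero => simpa [xs] using h0
  | succ k ih => rw [Finset.sum_range_succ, xs, hx, ih, add_comm]

lemma xs_lt {k : ℕ} {f : ℕ → ℕ} {N : ℕ} (h : ∀ i < k, f i < 2 ^ N) : xs k f < 2 ^ N := by
  induction k with
  | zero => simp [xs]
  | succ k ih =>
    rw [xs]
    exact Nat.xor_lt_two_pow (h k (Nat.lt_succ_self k)) (ih fun i hi => h i (by omega))

/-! ### codes of elements -/

lemma lam_ext {f g : Lam} (h : ∀ c < 19, co c f = co c g) : f = g := by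
  ext i
  · exact h 0 (by norm_num)
  · exact h 1 (by norm_num)
  · exact h 2 (by norm_num)
  · have := h (3 + i) (by omega)
    have hi := i.2
    unfold co at this
    rw [if_neg (by omega), if_neg (by omega), if_neg (by omega), dif_pos (by omega),
      if_neg (by omega), if_neg (by omega), if_neg (by omega), dif_pos (by omega)] at this
    have h2 : (⟨3 + (i : ℕ) - 3, by omega⟩ : Fin 4) = i := by ext; simp
    rwa [h2] at this
  · have := h (7 + i) (by omega)
    have hi := i.2
    unfold co at this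
    rw [if_neg (by omega), if_neg (by omega), if_neg (by omega), dif_neg (by omega),
      dif_pos (by omega),
      if_neg (by omega), if_neg (by omega), if_neg (by omega), dif_neg (by omega),
      dif_pos (by omega)] at this
    have h2 : (⟨7 + (i : ℕ) - 7, by omega⟩ : Fin 4) = i := by ext; simp
    rwa [h2] at this
  · have := h (11 + i) (by omega)
    have hi := i.2
    unfold co at this
    rw [if_neg (by omega), if_neg (by omega), if_neg (by omega), dif_neg (by omega),
      dif_neg (by omega), dif_pos (by omega),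
      if_neg (by omega), if_neg (by omega), if_neg (by omega), dif_neg (by omega),
      dif_neg (by omega), dif_pos (by omega)] at this
    have h2 : (⟨11 + (i : ℕ) - 11, by omega⟩ : Fin 8) = i := by ext; simp
    rwa [h2] at this

/-- coordinate as an additive map -/
def coh (c : ℕ) : Lam →+ ZMod 2 where
  toFun := co c
  map_zero' := co_zero c
  map_add' := co_add c

lemma coh_apply (c : ℕ) (f : Lam) : coh c f = co c f := rfl

lemma bt_two_pow (i c : ℕ) : bt (2 ^ i) c = if i = c then 1 else 0 := by
  unfold bt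
  rw [Nat.testBit_two_pow]
  by_cases h : i = c <;> simp [h]

lemma lam_eq_sum (n : ℕ) : lam n = ∑ i ∈ range 19, bt n i • lam (2 ^ i) := by
  apply lam_ext
  intro c hc
  rw [co_lam hc, ← coh_apply, map_sum]
  have : ∀ i ∈ range 19, coh c (bt n i • lam (2 ^ i)) = if i = c then bt n i else 0 := by
    intro i _
    rw [coh_apply, co_smul, co_lam hc, bt_two_pow]
    by_cases h : i = c <;> simp [h]
  rw [Finset.sum_congr rfl this, Finset.sum_ite_eq', if_pos (by simpa using hc)]

lemma bt_smul_lam (n i m : ℕ) : lam (if n.testBit i then m else 0) = bt n i • lam m := by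
  unfold bt
  cases n.testBit i <;> simp

/-- code of a product -/
def mulc (a b : ℕ) : ℕ :=
  xs 19 (fun i => if a.testBit i then xs 19 (fun j => if b.testBit j then sc i j else 0) else 0)

lemma lam_mulc (a b : ℕ) : lam (mulc a b) = lam a * lam b := by
  have h1 : ∀ i < 19, lam (xs 19 (fun j => if b.testBit j then sc i j else 0)) =
      lam (2 ^ i) * lam b := by
    intro i hi
    rw [map_xs lam lam_zero lam_xor, lam_eq_sum b, Finset.mul_sum]
    refine Finset.sum_congr rfl fun j hj => ?_
    rw [bt_smul_lam, mul_smul_comm, lam_sc hi (by simpa using hj)]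
  rw [mulc, map_xs lam lam_zero lam_xor]
  conv_rhs => rw [lam_eq_sum a, Finset.sum_mul]
  refine Finset.sum_congr rfl fun i hi => ?_
  rw [bt_smul_lam, h1 i (by simpa using hi), smul_mul_assoc]

lemma sc_lt {a b : ℕ} (ha : a < 19) (hb : b < 19) : sc a b < 2 ^ 19 := by
  have : ∀ a < 19, ∀ b < 19, sc a b < 2 ^ 19 := by decide +kernel
  exact this a ha b hb

lemma mulc_lt (a b : ℕ) : mulc a b < 2 ^ 19 := by
  unfold mulc
  refine xs_lt fun i hi => ?_
  split_ifs
  · refine xs_lt fun j hj => ?_
    split_ifs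
    · exact sc_lt hi hj
    · norm_num
  · norm_num

lemma lam_shift {x : ℕ} (hx : x < 2 ^ 19) (i j : ℕ) :
    lam ((x <<< (19 * i)) >>> (19 * j)) = if i = j then lam x else 0 := by
  apply lam_ext
  intro c hc
  rw [co_lam hc]
  by_cases h : i = j
  · subst h
    rw [if_pos rfl, co_lam hc]
    congr 1
    simp
  · rw [if_neg h, co_zero]
    have h2 : ((x <<< (19 * i)) >>> (19 * j)).testBit c = false := by
      rw [Nat.testBit_shiftRight, Nat.testBit_shiftLeft]
      by_cases h3 : 19 * i ≤ 19 * j + c
      · have h4 : 19 ≤ 19 * j + c - 19 * i := by omega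
        have h5 : x.testBit (19 * j + c - 19 * i) = false :=
          Nat.testBit_lt_two_pow (lt_of_lt_of_le hx (Nat.pow_le_pow_right (by norm_num) h4))
        rw [h5]; simp
      · simp [h3]
    simp [bt, h2]

/-! ### families -/

/-- the family with code `n` -/
def Fm (nA nB n : ℕ) : Fin nA → Fin nB → Lam := fun v w => lam (n >>> (19 * ((v : ℕ) * nB + w)))

lemma Fm_xor (nA nB m n : ℕ) : Fm nA nB (m ^^^ n) = Fm nA nB m + Fm nA nB n := by
  funext v w
  simp only [Fm, Pi.add_apply]
  rw [Nat.shiftRight_xor_distrib, lam_xor]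

@[simp] lemma Fm_zero (nA nB : ℕ) : Fm nA nB 0 = 0 := by
  funext v w
  simp [Fm]

lemma idx_inj {nB v w v' w' : ℕ} (hw : w < nB) (hw' : w' < nB)
    (h : v * nB + w = v' * nB + w') : v = v' ∧ w = w' := by
  have h1 : (v * nB + w) / nB = v := by
    rw [mul_comm, Nat.mul_add_div (by omega), Nat.div_eq_of_lt hw, add_zero]
  have h2 : (v' * nB + w') / nB = v' := by
    rw [mul_comm, Nat.mul_add_div (by omega), Nat.div_eq_of_lt hw', add_zero]
  have h3 : v = v' := by rw [← h1, ← h2, h]
  subst h3
  exact ⟨rfl, by omega⟩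

/-- the family with a single entry -/
def sg (nA nB v w : ℕ) (f : Lam) : Fin nA → Fin nB → Lam :=
  fun v' w' => if (v' : ℕ) = v ∧ (w' : ℕ) = w then f else 0

lemma Fm_shift {nA nB x v w : ℕ} (hx : x < 2 ^ 19) (hw : w < nB) :
    Fm nA nB (x <<< (19 * (v * nB + w))) = sg nA nB v w (lam x) := by
  funext v' w'
  simp only [Fm, sg]
  rw [lam_shift hx]
  by_cases h : (v' : ℕ) = v ∧ (w' : ℕ) = w
  · rw [if_pos h, if_pos (by rw [h.1, h.2])]
  · rw [if_neg h, if_neg]
    intro h2
    obtain ⟨h3, h4⟩ := idx_inj hw w'.2 h2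
    exact h ⟨h3.symm, h4.symm⟩

end Pool.Agent.W595.PT
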