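import Pool.Agent.W595.PT.LA

set_option autoImplicit false

/-!
Coded twisted complexes and the checker for contracting homotopies.
-/

namespace Pool.Agent.W595.PT

open Finset

/-- coded twisted complex -/
structure CT where
  n : ℕ
  lab : ℕ → ℕ
  pos : ℕ → ℕ
  m : ℕ → ℕ → ℕ

/-- validity of a coded twisted complex -/
structure CT.Ok (A : CT) : Prop where
  hlab : ∀ v < A.n, A.lab v < 3
  hpos : ∀ v < A.n, A.pos v < 7
  em : ∀ v < A.n, ∀ w < A.n, mulc (2 ^ A.lab v) (A.m v w) = A.m v w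
  me : ∀ v < A.n, ∀ w < A.n, mulc (A.m v w) (2 ^ A.lab w) = A.m v w
  mm : ∀ v < A.n, ∀ w < A.n, xs A.n (fun z => mulc (A.m v z) (A.m z w)) = 0
  mpos : ∀ v < A.n, ∀ w < A.n, A.pos w ≠ A.pos v + 1 → A.m v w = 0

lemma sc_self {l : ℕ} (hl : l < 3) : sc l l = 2 ^ l := by
  have : ∀ l < 3, sc l l = 2 ^ l := by decide +kernel
  exact this l hl

/-- the twisted complex of a code -/
def CT.tc (A : CT) (h : A.Ok) : TC Lam where
  n := A.n
  e v := lam (2 ^ A.lab v)
  pos v := A.pos v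
  m v w := lam (A.m v w)
  hpos v := h.hpos v v.2
  ee v := by rw [lam_sc (by have := h.hlab v v.2; omega) (by have := h.hlab v v.2; omega),
    sc_self (h.hlab v v.2)]
  em v w := by rw [← lam_mulc, h.em v v.2 w w.2]
  me v w := by rw [← lam_mulc, h.me v v.2 w w.2]
  mm v w := by
    have h1 := h.mm v v.2 w w.2
    have h2 := congrArg lam h1
    rw [map_xs lam lam_zero lam_xor, lam_zero] at h2
    rw [← h2, ← Fin.sum_univ_eq_sum_range (fun z => lam (mulc (A.m v z) (A.m z w)))]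
    refine Finset.sum_congr rfl fun z _ => ?_
    rw [lam_mulc]
  mpos v w hp := by rw [h.mpos v v.2 w w.2 hp, lam_zero]

/-- the basis of `e_l Lam e_l'` -/
def TT (l l' : ℕ) : List ℕ :=
  if l = l' then [l] else if l = 0 then (if l' = 1 then [3, 4, 5, 6] else
    [11, 12, 13, 14, 15, 16, 17, 18]) else if l = 1 then (if l' = 2 then [7, 8, 9, 10] else [])
  else []

lemma bt_pow (i c : ℕ) : bt (2 ^ i) c = if i = c then 1 else 0 := bt_two_pow i c

lemma e0_eq : lam (2 ^ 0) = ⟨1, 0, 0, 0, 0, 0⟩ := by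
  ext i
  · show bt (2 ^ 0) 0 = 1; rw [bt_pow]; simp
  · show bt (2 ^ 0) 1 = 0; rw [bt_pow]; simp
  · show bt (2 ^ 0) 2 = 0; rw [bt_pow]; simp
  · show bt (2 ^ 0) (3 + (i : ℕ)) = 0; rw [bt_pow, if_neg (by omega)]
  · show bt (2 ^ 0) (7 + (i : ℕ)) = 0; rw [bt_pow, if_neg (by omega)]
  · show bt (2 ^ 0) (11 + (i : ℕ)) = 0; rw [bt_pow, if_neg (by omega)]

lemma e1_eq : lam (2 ^ 1) = ⟨0, 1, 0, 0, 0, 0⟩ := by
  ext i
  · show bt (2 ^ 1) 0 = 0; rw [bt_pow]; simp
  · show bt (2 ^ 1) 1 = 1; rw [bt_pow]; simp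
  · show bt (2 ^ 1) 2 = 0; rw [bt_pow]; simp
  · show bt (2 ^ 1) (3 + (i : ℕ)) = 0; rw [bt_pow, if_neg (by omega)]
  · show bt (2 ^ 1) (7 + (i : ℕ)) = 0; rw [bt_pow, if_neg (by omega)]
  · show bt (2 ^ 1) (11 + (i : ℕ)) = 0; rw [bt_pow, if_neg (by omega)]

lemma e2_eq : lam (2 ^ 2) = ⟨0, 0, 1, 0, 0, 0⟩ := by
  ext i
  · show bt (2 ^ 2) 0 = 0; rw [bt_pow]; simp
  · show bt (2 ^ 2) 1 = 0; rw [bt_pow]; simp
  · show bt (2 ^ 2) 2 = 1; rw [bt_pow]; simp
  · show bt (2 ^ 2) (3 + (i : ℕ)) = 0; rw [bt_pow, if_neg (by omega)]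
  · show bt (2 ^ 2) (7 + (i : ℕ)) = 0; rw [bt_pow, if_neg (by omega)]
  · show bt (2 ^ 2) (11 + (i : ℕ)) = 0; rw [bt_pow, if_neg (by omega)]

lemma co_prod {l l' : ℕ} (hl : l < 3) (hl' : l' < 3) (f : Lam) {c : ℕ} (hc : c < 19) :
    co c (lam (2 ^ l) * f * lam (2 ^ l')) = if c ∈ TT l l' then co c f else 0 := by
  have h0 : l = 0 ∨ l = 1 ∨ l = 2 := by omega
  have h0' : l' = 0 ∨ l' = 1 ∨ l' = 2 := by omega
  rcases h0 with h0 | h0 | h0 <;> rcases h0' with h0' | h0' | h0' <;> subst h0 <;> subst h0' <;>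
    simp only [e0_eq, e1_eq, e2_eq] <;> interval_cases c <;> simp [co, TT]

lemma TT_lt {l l' c : ℕ} (hl : l < 3) (hl' : l' < 3) (hc : c ∈ TT l l') : c < 19 := by
  have : ∀ l < 3, ∀ l' < 3, ∀ c ∈ TT l l', c < 19 := by decide +kernel
  exact this l hl l' hl' c hc

lemma TT_nodup {l l' : ℕ} (hl : l < 3) (hl' : l' < 3) : (TT l l').Nodup := by
  have : ∀ l < 3, ∀ l' < 3, (TT l l').Nodup := by decide +kernel
  exact this l hl l' hl'

lemma typed_expand {l l' : ℕ} (hl : l < 3) (hl' : l' < 3) (f : Lam)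
    (hf : lam (2 ^ l) * f * lam (2 ^ l') = f) :
    f = ((TT l l').map (fun c => co c f • lam (2 ^ c))).sum := by
  have h1 : ((TT l l').map (fun c => co c f • lam (2 ^ c))).sum =
      ∑ c ∈ (TT l l').toFinset, co c f • lam (2 ^ c) := by
    rw [List.sum_toFinset _ (TT_nodup hl hl')]
  rw [h1]
  apply lam_ext
  intro c hc
  rw [← coh_apply c (∑ x ∈ _, _), map_sum]
  have h2 : ∀ i ∈ (TT l l').toFinset, coh c (co i f • lam (2 ^ i)) = if i = c then co i f else 0 := by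
    intro i _
    rw [coh_apply, co_smul, co_lam hc, bt_two_pow]
    by_cases h : i = c <;> simp [h]
  rw [Finset.sum_congr rfl h2, Finset.sum_ite_eq']
  conv_lhs => rw [← hf, co_prod hl hl' f hc]
  simp

/-- entries of a certificate table: position `(v, w)`, basis vector `c`, row of the differential,
row of the homotopy, row of the projection -/
structure En where
  v : ℕ
  w : ℕ
  c : ℕ
  d : ℕ
  h : ℕ
  p : ℕ

/-- index of the bit -/
def En.ix (nB : ℕ) (t : En) : ℕ := 19 * (t.v * nB + t.w) + t.c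

/-- apply a coded linear map given by the rows `sel` -/
def app (nB : ℕ) (T : List En) (sel : En → ℕ) (n : ℕ) : ℕ :=
  match T with
  | [] => 0
  | t :: T => (if n.testBit (t.ix nB) then sel t else 0) ^^^ app nB T sel n

lemma Fm_app (nA nB : ℕ) (T : List En) (sel : En → ℕ) (n : ℕ) :
    Fm nA nB (app nB T sel n) = (T.map (fun t => bt n (t.ix nB) • Fm nA nB (sel t))).sum := by
  induction T with
  | nil => simp [app]
  | cons t T ih =>
    rw [app, Fm_xor, ih, List.map_cons, List.sum_cons]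
    congr 1
    unfold bt
    cases n.testBit (t.ix nB) <;> simp

/-- the row of the differential -/
def drow (A B : CT) (v w c : ℕ) : ℕ :=
  xs A.n (fun v' => (mulc (A.m v' v) (2 ^ c)) <<< (19 * (v' * B.n + w))) ^^^
    xs B.n (fun w' => (mulc (2 ^ c) (B.m w w')) <<< (19 * (v * B.n + w')))

/-- the check -/
structure Chk (A B : CT) (T : List En) : Prop where
  bd : ∀ t ∈ T, t.v < A.n ∧ t.w < B.n ∧ t.c < 19
  dr : ∀ t ∈ T, drow A B t.v t.w t.c = t.d
  sup : ∀ t ∈ T, app B.n T (fun s => 2 ^ (s.ix B.n)) t.h = t.h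
  hh : ∀ t ∈ T, app B.n T En.h (2 ^ (t.ix B.n)) = t.h
  pp : ∀ t ∈ T, app B.n T En.p (2 ^ (t.ix B.n)) = t.p
  id : ∀ t ∈ T, app B.n T En.d t.h ^^^ app B.n T En.h t.d ^^^ t.p = 2 ^ (t.ix B.n)
  cov : ∀ v < A.n, ∀ w < B.n,
    ((T.filter (fun t => decide (t.v = v ∧ t.w = w))).map En.c) = TT (A.lab v) (B.lab w)

lemma Fm_basis {nA nB : ℕ} {t : En} (hw : t.w < nB) (hc : t.c < 19) :
    Fm nA nB (2 ^ (t.ix nB)) = sg nA nB t.v t.w (lam (2 ^ t.c)) := by
  have h1 : 2 ^ (t.ix nB) = (2 ^ t.c) <<< (19 * (t.v * nB + t.w)) := by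
    rw [Nat.shiftLeft_eq, ← pow_add, En.ix, add_comm]
  rw [h1, Fm_shift (Nat.pow_lt_pow_right (by norm_num) hc) hw]

/-- the differential of coded families -/
def ddc (A B : CT) (y : Fin A.n → Fin B.n → Lam) : Fin A.n → Fin B.n → Lam :=
  fun v w => ∑ z : Fin A.n, lam (A.m v z) * y z w + ∑ z : Fin B.n, y v z * lam (B.m z w)

/-- typed coded families -/
def Tyc (A B : CT) (y : Fin A.n → Fin B.n → Lam) : Prop :=
  ∀ (v : Fin A.n) (w : Fin B.n), lam (2 ^ A.lab v) * y v w * lam (2 ^ B.lab w) = y v w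

lemma ddc_add (A B : CT) (y z : Fin A.n → Fin B.n → Lam) :
    ddc A B (y + z) = ddc A B y + ddc A B z := by
  funext v w
  simp only [ddc, Pi.add_apply, mul_add, add_mul, Finset.sum_add_distrib]
  abel

lemma ddc_smul (A B : CT) (c : ZMod 2) (y : Fin A.n → Fin B.n → Lam) :
    ddc A B (c • y) = c • ddc A B y := by
  funext v w
  simp only [ddc, Pi.smul_apply, mul_smul_comm, smul_mul_assoc, ← Finset.smul_sum, smul_add]

lemma sum_app2 {a b : ℕ} (s : Finset ℕ) (F : ℕ → Fin a → Fin b → Lam) (v : Fin a) (w : Fin b) :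
    (∑ i ∈ s, F i) v w = ∑ i ∈ s, F i v w := by
  rw [Finset.sum_apply, Finset.sum_apply]

lemma dd_sg (A B : CT) {v w c : ℕ} (hv : v < A.n) (hw : w < B.n) :
    ddc A B (sg A.n B.n v w (lam (2 ^ c))) = Fm A.n B.n (drow A B v w c) := by
  rw [drow, Fm_xor, map_xs (Fm A.n B.n) (Fm_zero _ _) (Fm_xor _ _),
    map_xs (Fm A.n B.n) (Fm_zero _ _) (Fm_xor _ _)]
  funext v0 w0
  simp only [ddc, Pi.add_apply, sum_app2]
  congr 1
  · rw [← Fin.sum_univ_eq_sum_range (fun v' => Fm A.n B.n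
      ((mulc (A.m v' v) (2 ^ c)) <<< (19 * (v' * B.n + w))) v0 w0)]
    have h1 : ∀ v' : Fin A.n, Fm A.n B.n
        ((mulc (A.m v' v) (2 ^ c)) <<< (19 * (v' * B.n + w))) v0 w0 =
        if v0 = v' then (if (w0 : ℕ) = w then lam (A.m v' v) * lam (2 ^ c) else 0) else 0 := by
      intro v'
      rw [Fm_shift (mulc_lt _ _) hw, sg, lam_mulc]
      by_cases h : v0 = v'
      · subst h; simp
      · have : ¬ (v0 : ℕ) = v' := fun h2 => h (Fin.ext h2)
        simp [h, this]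
    rw [Finset.sum_congr rfl (fun v' _ => h1 v')]
    have h2 : ∀ z : Fin A.n, lam (A.m v0 z) * sg A.n B.n v w (lam (2 ^ c)) z w0 =
        if z = ⟨v, hv⟩ then (if (w0 : ℕ) = w then lam (A.m v0 v) * lam (2 ^ c) else 0) else 0 := by
      intro z
      by_cases h : z = ⟨v, hv⟩
      · subst h
        by_cases h3 : (w0 : ℕ) = w <;> simp [sg, h3]
      · have : ¬ (z : ℕ) = v := fun h2 => h (Fin.ext h2)
        simp [sg, h, this]
    rw [Finset.sum_congr rfl (fun z _ => h2 z)]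
    simp
  · rw [← Fin.sum_univ_eq_sum_range (fun w' => Fm A.n B.n
      ((mulc (2 ^ c) (B.m w w')) <<< (19 * (v * B.n + w'))) v0 w0)]
    have h1 : ∀ w' : Fin B.n, Fm A.n B.n
        ((mulc (2 ^ c) (B.m w w')) <<< (19 * (v * B.n + w'))) v0 w0 =
        if w0 = w' then (if (v0 : ℕ) = v then lam (2 ^ c) * lam (B.m w w') else 0) else 0 := by
      intro w'
      rw [Fm_shift (mulc_lt _ _) w'.2, sg, lam_mulc]
      by_cases h : w0 = w'
      · subst h; simp
      · have : ¬ (w0 : ℕ) = w' := fun h2 => h (Fin.ext h2)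
        simp [h, this]
    rw [Finset.sum_congr rfl (fun w' _ => h1 w')]
    have h2 : ∀ z : Fin B.n, sg A.n B.n v w (lam (2 ^ c)) v0 z * lam (B.m z w0) =
        if z = ⟨w, hw⟩ then (if (v0 : ℕ) = v then lam (2 ^ c) * lam (B.m w w0) else 0) else 0 := by
      intro z
      by_cases h : z = ⟨w, hw⟩
      · subst h
        by_cases h3 : (v0 : ℕ) = v <;> simp [sg, h3]
      · have : ¬ (z : ℕ) = w := fun h2 => h (Fin.ext h2)
        simp [sg, h, this]
    rw [Finset.sum_congr rfl (fun z _ => h2 z)]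
    simp

end Pool.Agent.W595.PT
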