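import Pool.Agent.W595.PT.LB

set_option autoImplicit false

/-!
The checker theorem.
-/

namespace Pool.Agent.W595.PT

open Finset

/-- the coordinate of a family -/
def cfn {nA nB : ℕ} (y : Fin nA → Fin nB → Lam) (t : En) : ZMod 2 :=
  if h : t.v < nA ∧ t.w < nB then co t.c (y ⟨t.v, h.1⟩ ⟨t.w, h.2⟩) else 0

lemma cfn_add {nA nB : ℕ} (y z : Fin nA → Fin nB → Lam) (t : En) :
    cfn (y + z) t = cfn y t + cfn z t := by
  unfold cfn
  split_ifs
  · exact co_add _ _ _
  · simp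

lemma cfn_smul {nA nB : ℕ} (c : ZMod 2) (y : Fin nA → Fin nB → Lam) (t : En) :
    cfn (c • y) t = c * cfn y t := by
  unfold cfn
  split_ifs
  · exact co_smul _ _ _
  · simp

lemma bt_shiftRight (n k c : ℕ) : bt (n >>> k) c = bt n (k + c) := by
  unfold bt
  rw [Nat.testBit_shiftRight]

lemma cfn_Fm {nA nB : ℕ} (n : ℕ) {t : En} (h : t.v < nA ∧ t.w < nB ∧ t.c < 19) :
    cfn (Fm nA nB n) t = bt n (t.ix nB) := by
  unfold cfn
  rw [dif_pos ⟨h.1, h.2.1⟩, Fm, co_lam h.2.2, bt_shiftRight, En.ix]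

/-- the linear map with rows `sel` -/
def Ls (nA nB : ℕ) (T : List En) (sel : En → ℕ) (y : Fin nA → Fin nB → Lam) :
    Fin nA → Fin nB → Lam :=
  (T.map (fun t => cfn y t • Fm nA nB (sel t))).sum

lemma Ls_add (nA nB : ℕ) (T : List En) (sel : En → ℕ) (y z : Fin nA → Fin nB → Lam) :
    Ls nA nB T sel (y + z) = Ls nA nB T sel y + Ls nA nB T sel z := by
  unfold Ls
  induction T with
  | nil => simp
  | cons t T ih =>
    simp only [List.map_cons, List.sum_cons]
    rw [ih, cfn_add, add_smul]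
    abel

lemma Ls_smul (nA nB : ℕ) (T : List En) (sel : En → ℕ) (c : ZMod 2)
    (y : Fin nA → Fin nB → Lam) :
    Ls nA nB T sel (c • y) = c • Ls nA nB T sel y := by
  unfold Ls
  induction T with
  | nil => simp
  | cons t T ih =>
    simp only [List.map_cons, List.sum_cons]
    rw [ih, cfn_smul, smul_add, mul_smul]

lemma Ls_zero (nA nB : ℕ) (T : List En) (sel : En → ℕ) :
    Ls nA nB T sel 0 = 0 := by
  have h := Ls_smul nA nB T sel 0 0
  simpa using h

lemma Ls_Fm (nA nB : ℕ) (T : List En) (sel : En → ℕ)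
    (hT : ∀ t ∈ T, t.v < nA ∧ t.w < nB ∧ t.c < 19) (n : ℕ) :
    Ls nA nB T sel (Fm nA nB n) = Fm nA nB (app nB T sel n) := by
  rw [Fm_app]
  unfold Ls
  congr 1
  refine List.map_congr_left fun t ht => ?_
  rw [cfn_Fm n (hT t ht)]

/-- an additive map commutes with list sums -/
lemma map_lsum {nA nB : ℕ} {M : Type*} [AddCommGroup M] [Module (ZMod 2) M]
    (Φ : (Fin nA → Fin nB → Lam) → M) (h0 : Φ 0 = 0)
    (ha : ∀ y z, Φ (y + z) = Φ y + Φ z) (hs : ∀ (c : ZMod 2) y, Φ (c • y) = c • Φ y)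
    (T : List En) (cf : En → ZMod 2) (F : En → Fin nA → Fin nB → Lam) :
    Φ ((T.map (fun t => cf t • F t)).sum) = (T.map (fun t => cf t • Φ (F t))).sum := by
  induction T with
  | nil => simpa using h0
  | cons t T ih =>
    simp only [List.map_cons, List.sum_cons]
    rw [ha, ih, hs]

lemma lsum_apply {nA nB : ℕ} (T : List En) (F : En → Fin nA → Fin nB → Lam)
    (v : Fin nA) (w : Fin nB) :
    ((T.map F).sum) v w = (T.map (fun t => F t v w)).sum := by
  induction T with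
  | nil => simp
  | cons t T ih =>
    simp only [List.map_cons, List.sum_cons]
    rw [Pi.add_apply, Pi.add_apply, ih]

lemma expand_aux {nA nB : ℕ} (T : List En) (y : Fin nA → Fin nB → Lam)
    (hT : ∀ t ∈ T, t.v < nA ∧ t.w < nB ∧ t.c < 19) (v : Fin nA) (w : Fin nB) :
    (T.map (fun t => (cfn y t • Fm nA nB (2 ^ t.ix nB)) v w)).sum =
    (((T.filter (fun t => decide (t.v = (v : ℕ) ∧ t.w = (w : ℕ)))).map En.c).map
      (fun c => co c (y v w) • lam (2 ^ c))).sum := by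
  induction T with
  | nil => simp
  | cons t T ih =>
    have ht := hT t (List.mem_cons_self)
    have ih' := ih fun s hs => hT s (List.mem_cons_of_mem _ hs)
    rw [List.map_cons, List.sum_cons, ih', List.filter_cons]
    by_cases h : t.v = (v : ℕ) ∧ t.w = (w : ℕ)
    · rw [if_pos (by simpa using h), List.map_cons, List.map_cons, List.sum_cons]
      congr 1
      rw [Pi.smul_apply, Pi.smul_apply, Fm_basis ht.2.1 ht.2.2]
      have h1 : cfn y t = co t.c (y v w) := by
        unfold cfn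
        rw [dif_pos ⟨ht.1, ht.2.1⟩]
        have h2 : (⟨t.v, ht.1⟩ : Fin nA) = v := Fin.ext h.1
        have h3 : (⟨t.w, ht.2.1⟩ : Fin nB) = w := Fin.ext h.2
        rw [h2, h3]
      rw [h1, sg, if_pos ⟨h.1.symm, h.2.symm⟩]
    · rw [if_neg (by simpa using h)]
      have h2 : (cfn y t • Fm nA nB (2 ^ t.ix nB)) v w = 0 := by
        rw [Pi.smul_apply, Pi.smul_apply, Fm_basis ht.2.1 ht.2.2, sg, if_neg, smul_zero]
        intro h3
        exact h ⟨h3.1.symm, h3.2.symm⟩
      rw [h2, zero_add]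

lemma lam_typed {l l' c : ℕ} (hl : l < 3) (hl' : l' < 3) (hc : c ∈ TT l l') :
    lam (2 ^ l) * lam (2 ^ c) * lam (2 ^ l') = lam (2 ^ c) := by
  have hc19 := TT_lt hl hl' hc
  apply lam_ext
  intro c' hc'
  rw [co_prod hl hl' _ hc', co_lam hc', bt_two_pow]
  by_cases h : c = c'
  · subst h
    rw [if_pos hc]
  · simp [h]

lemma Tyc_add {A B : CT} {y z : Fin A.n → Fin B.n → Lam} (hy : Tyc A B y) (hz : Tyc A B z) :
    Tyc A B (y + z) := by
  intro v w
  have := hy v w
  have := hz v w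
  simp only [Pi.add_apply, mul_add, add_mul, *]

lemma Tyc_smul {A B : CT} {y : Fin A.n → Fin B.n → Lam} (c : ZMod 2) (hy : Tyc A B y) :
    Tyc A B (c • y) := by
  intro v w
  have := hy v w
  simp only [Pi.smul_apply, mul_smul_comm, smul_mul_assoc, this]

lemma Tyc_zero {A B : CT} : Tyc A B 0 := by
  intro v w
  simp

lemma Tyc_lsum {A B : CT} (T : List En) (cf : En → ZMod 2) (F : En → Fin A.n → Fin B.n → Lam)
    (hF : ∀ t ∈ T, Tyc A B (F t)) : Tyc A B ((T.map (fun t => cf t • F t)).sum) := by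
  induction T with
  | nil => simpa using Tyc_zero
  | cons t T ih =>
    simp only [List.map_cons, List.sum_cons]
    exact Tyc_add (Tyc_smul _ (hF t List.mem_cons_self))
      (ih fun s hs => hF s (List.mem_cons_of_mem _ hs))

set_option linter.unusedSectionVars false

section check

variable {A B : CT} {T : List En} (hA : A.Ok) (hB : B.Ok) (hC : Chk A B T)
include hA hB hC

lemma mem_TT {t : En} (ht : t ∈ T) : t.c ∈ TT (A.lab t.v) (B.lab t.w) := by
  obtain ⟨h1, h2, h3⟩ := hC.bd t ht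
  rw [← hC.cov t.v h1 t.w h2]
  refine List.mem_map_of_mem (List.mem_filter.2 ⟨ht, by simp⟩)

lemma basis_typed {t : En} (ht : t ∈ T) : Tyc A B (Fm A.n B.n (2 ^ t.ix B.n)) := by
  obtain ⟨h1, h2, h3⟩ := hC.bd t ht
  have h4 := mem_TT hA hB hC ht
  intro v w
  rw [Fm_basis h2 h3, sg]
  split_ifs with h
  · rw [h.1, h.2]
    exact lam_typed (hA.hlab t.v h1) (hB.hlab t.w h2) h4
  · simp

lemma expand {y : Fin A.n → Fin B.n → Lam} (hy : Tyc A B y) :
    y = (T.map (fun t => cfn y t • Fm A.n B.n (2 ^ t.ix B.n))).sum := by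
  funext v w
  rw [lsum_apply, expand_aux T y hC.bd v w, hC.cov v v.2 w w.2]
  exact typed_expand (hA.hlab v v.2) (hB.hlab w w.2) (y v w) (hy v w)

lemma ddc_basis {t : En} (ht : t ∈ T) :
    ddc A B (Fm A.n B.n (2 ^ t.ix B.n)) = Fm A.n B.n t.d := by
  obtain ⟨h1, h2, h3⟩ := hC.bd t ht
  rw [Fm_basis h2 h3, dd_sg A B h1 h2, hC.dr t ht]

lemma ddc_h {t : En} (ht : t ∈ T) :
    ddc A B (Fm A.n B.n t.h) = Fm A.n B.n (app B.n T En.d t.h) := by
  rw [← hC.sup t ht, Fm_app]
  have h0 : ddc A B 0 = 0 := by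
    have := ddc_smul A B 0 0
    simpa using this
  rw [map_lsum (ddc A B) h0 (ddc_add A B) (ddc_smul A B) T (fun s => bt t.h (s.ix B.n))
    (fun s => Fm A.n B.n (2 ^ s.ix B.n)), hC.sup t ht, Fm_app]
  congr 1
  refine List.map_congr_left fun s hs => ?_
  rw [ddc_basis hA hB hC hs]

lemma h_typed {t : En} (ht : t ∈ T) : Tyc A B (Fm A.n B.n t.h) := by
  rw [← hC.sup t ht, Fm_app]
  exact Tyc_lsum T _ _ fun s hs => basis_typed hA hB hC hs

lemma homotopy_basis {t : En} (ht : t ∈ T) :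
    ddc A B (Ls A.n B.n T En.h (Fm A.n B.n (2 ^ t.ix B.n))) +
      Ls A.n B.n T En.h (ddc A B (Fm A.n B.n (2 ^ t.ix B.n))) +
      Ls A.n B.n T En.p (Fm A.n B.n (2 ^ t.ix B.n)) = Fm A.n B.n (2 ^ t.ix B.n) := by
  rw [Ls_Fm _ _ _ _ hC.bd, Ls_Fm _ _ _ _ hC.bd, hC.hh t ht, hC.pp t ht,
    ddc_basis hA hB hC ht, Ls_Fm _ _ _ _ hC.bd, ddc_h hA hB hC ht, ← Fm_xor, ← Fm_xor,
    hC.id t ht]

lemma homotopy {y : Fin A.n → Fin B.n → Lam} (hy : Tyc A B y) :
    ddc A B (Ls A.n B.n T En.h y) + Ls A.n B.n T En.h (ddc A B y) + Ls A.n B.n T En.p y = y := by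
  have h0 : ddc A B 0 = 0 := by
    have := ddc_smul A B 0 0
    simpa using this
  have h1 := map_lsum (fun y => ddc A B (Ls A.n B.n T En.h y) + Ls A.n B.n T En.h (ddc A B y) +
    Ls A.n B.n T En.p y) (by simp only [Ls_zero, h0, add_zero])
    (fun y z => by simp only [Ls_add, ddc_add]; abel)
    (fun c y => by simp only [Ls_smul, ddc_smul, smul_add]) T (cfn y)
    (fun t => Fm A.n B.n (2 ^ t.ix B.n))
  rw [← expand hA hB hC hy] at h1
  rw [h1]
  conv_rhs => rw [expand hA hB hC hy]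
  congr 1
  refine List.map_congr_left fun s hs => ?_
  rw [homotopy_basis hA hB hC hs]

lemma h_ty (y : Fin A.n → Fin B.n → Lam) : Tyc A B (Ls A.n B.n T En.h y) :=
  Tyc_lsum T _ _ fun _ hs => h_typed hA hB hC hs

/-- acyclicity from a certificate -/
theorem homAcyc_of_chk (hp : ∀ t ∈ T, t.p = 0) : TC.HomAcyc (A.tc hA) (B.tc hB) := by
  intro y hy hd
  have hy' : Tyc A B y := hy
  have hd' : ddc A B y = 0 := hd
  refine ⟨Ls A.n B.n T En.h y, h_ty hA hB hC y, ?_⟩
  show ddc A B (Ls A.n B.n T En.h y) = y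
  have h1 := homotopy hA hB hC hy'
  have h2 : Ls A.n B.n T En.p y = 0 := by
    unfold Ls
    apply List.sum_eq_zero
    intro x hx
    obtain ⟨t, ht, rfl⟩ := List.mem_map.1 hx
    rw [hp t ht, Fm_zero, smul_zero]
  rwa [hd', Ls_zero, h2, add_zero, add_zero] at h1

end check

/-- code of the identity -/
def idc (A : CT) : ℕ := xs A.n (fun v => (2 ^ A.lab v) <<< (19 * (v * A.n + v)))

lemma Fm_idc {A : CT} (hA : A.Ok) : Fm A.n A.n (idc A) = fun (v w : Fin A.n) =>
    if v = w then lam (2 ^ A.lab v) else 0 := by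
  unfold idc
  rw [map_xs (Fm A.n A.n) (Fm_zero _ _) (Fm_xor _ _)]
  funext v w
  rw [sum_app2, ← Fin.sum_univ_eq_sum_range (fun i => Fm A.n A.n
    ((2 ^ A.lab i) <<< (19 * (i * A.n + i))) v w)]
  have h1 : ∀ i : Fin A.n, Fm A.n A.n ((2 ^ A.lab i) <<< (19 * ((i : ℕ) * A.n + i))) v w =
      if v = i then (if v = w then lam (2 ^ A.lab v) else 0) else 0 := by
    intro i
    have h3 := hA.hlab i i.2
    have h4 : 2 ^ A.lab i < 2 ^ 19 := Nat.pow_lt_pow_right (by norm_num) (by omega)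
    rw [Fm_shift h4 i.2, sg]
    by_cases h : v = i
    · subst h
      by_cases h5 : v = w
      · subst h5; simp
      · have : ¬ ((w : ℕ) = v) := fun h2 => h5 (Fin.ext h2.symm)
        simp [h5, this]
    · have : ¬ (v : ℕ) = i := fun h2 => h (Fin.ext h2)
      simp [h, this]
  rw [Finset.sum_congr rfl (fun i _ => h1 i)]
  simp

/-- self-homomorphisms from a certificate -/
theorem homSelf_of_chk {A : CT} {T : List En} (hA : A.Ok) (hC : Chk A A T)
    (hp : ∀ t ∈ T, t.p = 0 ∨ t.p = idc A) : (A.tc hA).HomSelf (ZMod 2) := by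
  intro y hy hd
  have hy' : Tyc A A y := hy
  have hd' : ddc A A y = 0 := hd
  have h1 := homotopy hA hA hC hy'
  rw [hd', Ls_zero, add_zero] at h1
  have h2 : ∃ c : ZMod 2, Ls A.n A.n T En.p y = c • Fm A.n A.n (idc A) := by
    unfold Ls
    clear hC h1
    induction T with
    | nil => exact ⟨0, by simp⟩
    | cons t T ih =>
      obtain ⟨c, hc⟩ := ih fun s hs => hp s (List.mem_cons_of_mem _ hs)
      rw [List.map_cons, List.sum_cons, hc]
      rcases hp t List.mem_cons_self with h | h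
      · exact ⟨c, by rw [h, Fm_zero, smul_zero, zero_add]⟩
      · exact ⟨cfn y t + c, by rw [h, add_smul]; rfl⟩
  obtain ⟨c, hc⟩ := h2
  refine ⟨Ls A.n A.n T En.h y, c, h_ty hA hA hC y, ?_⟩
  rw [hc, Fm_idc hA] at h1
  exact h1.symm

end Pool.Agent.W595.PT
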