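import Mathlib

set_option autoImplicit false

/-!
The algebra `Lam` (dimension 19 over `ZMod 2`), and bit codes for its elements.
Bits 0,1,2: the idempotents e0, e1, e2; bits 3..6: e0 Lam e1; bits 7..10: e1 Lam e2;
bits 11..18: e0 Lam e2.
-/

namespace Pool.Agent.W595.PT

/-- the bit `i` of `n`, as an element of `ZMod 2` -/
def bt (n i : ℕ) : ZMod 2 := if n.testBit i then 1 else 0

lemma bt_xor (m n i : ℕ) : bt (m ^^^ n) i = bt m i + bt n i := by
  unfold bt
  rw [Nat.testBit_xor]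
  cases m.testBit i <;> cases n.testBit i <;> decide

@[simp] lemma bt_zero (i : ℕ) : bt 0 i = 0 := by simp [bt]

/-- structure constants of the multiplication `e0 Lam e1 x e1 Lam e2 → e0 Lam e2` -/
def muc : List ℕ := [14, 58, 254, 83, 199, 119, 90, 156, 58, 241, 123, 217, 222, 228, 164, 210]

/-- coefficient of the k-th basis vector in the product of the j-th basis vector of `e0 Lam e1`
and the i-th basis vector of `e1 Lam e2` -/
def Tc (j i : Fin 4) (k : Fin 8) : ZMod 2 := bt (muc.getD (4 * i + j) 0) k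

/-- the bilinear multiplication -/
def bil (x y : Fin 4 → ZMod 2) : Fin 8 → ZMod 2 := fun k => ∑ j, ∑ i, x j * y i * Tc j i k

lemma bil_add_left (x x' y : Fin 4 → ZMod 2) : bil (x + x') y = bil x y + bil x' y := by
  funext k; simp [bil, add_mul, Finset.sum_add_distrib]
lemma bil_add_right (x y y' : Fin 4 → ZMod 2) : bil x (y + y') = bil x y + bil x y' := by
  funext k; simp [bil, mul_add, add_mul, Finset.sum_add_distrib]
lemma bil_smul_left (c : ZMod 2) (x y : Fin 4 → ZMod 2) : bil (c • x) y = c • bil x y := by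
  funext k; simp [bil, Finset.mul_sum, mul_assoc]
lemma bil_smul_right (c : ZMod 2) (x y : Fin 4 → ZMod 2) : bil x (c • y) = c • bil x y := by
  funext k
  simp only [bil, Pi.smul_apply, smul_eq_mul, Finset.mul_sum]
  refine Finset.sum_congr rfl fun j _ => Finset.sum_congr rfl fun i _ => ?_
  ring
@[simp] lemma bil_zero_left (y : Fin 4 → ZMod 2) : bil 0 y = 0 := by funext k; simp [bil]
@[simp] lemma bil_zero_right (x : Fin 4 → ZMod 2) : bil x 0 = 0 := by funext k; simp [bil]

/-- the algebra -/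
@[ext] structure Lam where
  a0 : ZMod 2
  a1 : ZMod 2
  a2 : ZMod 2
  x : Fin 4 → ZMod 2
  y : Fin 4 → ZMod 2
  w : Fin 8 → ZMod 2
deriving DecidableEq

namespace Lam

instance : Zero Lam := ⟨⟨0, 0, 0, 0, 0, 0⟩⟩
instance : One Lam := ⟨⟨1, 1, 1, 0, 0, 0⟩⟩
instance : Add Lam := ⟨fun f g => ⟨f.a0 + g.a0, f.a1 + g.a1, f.a2 + g.a2, f.x + g.x, f.y + g.y,
  f.w + g.w⟩⟩
instance : Neg Lam := ⟨fun f => ⟨-f.a0, -f.a1, -f.a2, -f.x, -f.y, -f.w⟩⟩
instance : Mul Lam := ⟨fun f g => ⟨f.a0 * g.a0, f.a1 * g.a1, f.a2 * g.a2,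
  f.a0 • g.x + g.a1 • f.x, f.a1 • g.y + g.a2 • f.y,
  f.a0 • g.w + bil f.x g.y + g.a2 • f.w⟩⟩
instance : SMul (ZMod 2) Lam := ⟨fun c g => ⟨c * g.a0, c * g.a1, c * g.a2, c • g.x, c • g.y,
  c • g.w⟩⟩

section lemmas
variable (f g : Lam) (c : ZMod 2)
@[simp] lemma zero_a0 : (0 : Lam).a0 = 0 := rfl
@[simp] lemma zero_a1 : (0 : Lam).a1 = 0 := rfl
@[simp] lemma zero_a2 : (0 : Lam).a2 = 0 := rfl
@[simp] lemma zero_x : (0 : Lam).x = 0 := rfl
@[simp] lemma zero_y : (0 : Lam).y = 0 := rfl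
@[simp] lemma zero_w : (0 : Lam).w = 0 := rfl
@[simp] lemma one_a0 : (1 : Lam).a0 = 1 := rfl
@[simp] lemma one_a1 : (1 : Lam).a1 = 1 := rfl
@[simp] lemma one_a2 : (1 : Lam).a2 = 1 := rfl
@[simp] lemma one_x : (1 : Lam).x = 0 := rfl
@[simp] lemma one_y : (1 : Lam).y = 0 := rfl
@[simp] lemma one_w : (1 : Lam).w = 0 := rfl
@[simp] lemma add_a0 : (f + g).a0 = f.a0 + g.a0 := rfl
@[simp] lemma add_a1 : (f + g).a1 = f.a1 + g.a1 := rfl
@[simp] lemma add_a2 : (f + g).a2 = f.a2 + g.a2 := rfl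
@[simp] lemma add_x : (f + g).x = f.x + g.x := rfl
@[simp] lemma add_y : (f + g).y = f.y + g.y := rfl
@[simp] lemma add_w : (f + g).w = f.w + g.w := rfl
@[simp] lemma neg_a0 : (-f).a0 = -f.a0 := rfl
@[simp] lemma neg_a1 : (-f).a1 = -f.a1 := rfl
@[simp] lemma neg_a2 : (-f).a2 = -f.a2 := rfl
@[simp] lemma neg_x : (-f).x = -f.x := rfl
@[simp] lemma neg_y : (-f).y = -f.y := rfl
@[simp] lemma neg_w : (-f).w = -f.w := rfl
@[simp] lemma mul_a0 : (f * g).a0 = f.a0 * g.a0 := rfl
@[simp] lemma mul_a1 : (f * g).a1 = f.a1 * g.a1 := rfl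
@[simp] lemma mul_a2 : (f * g).a2 = f.a2 * g.a2 := rfl
@[simp] lemma mul_x : (f * g).x = f.a0 • g.x + g.a1 • f.x := rfl
@[simp] lemma mul_y : (f * g).y = f.a1 • g.y + g.a2 • f.y := rfl
@[simp] lemma mul_w : (f * g).w = f.a0 • g.w + bil f.x g.y + g.a2 • f.w := rfl
@[simp] lemma smul_a0 : (c • f).a0 = c * f.a0 := rfl
@[simp] lemma smul_a1 : (c • f).a1 = c * f.a1 := rfl
@[simp] lemma smul_a2 : (c • f).a2 = c * f.a2 := rfl
@[simp] lemma smul_x : (c • f).x = c • f.x := rfl
@[simp] lemma smul_y : (c • f).y = c • f.y := rfl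
@[simp] lemma smul_w : (c • f).w = c • f.w := rfl
end lemmas

instance : AddCommGroup Lam where
  add_assoc f g h := by ext <;> simp [add_assoc]
  zero_add f := by ext <;> simp
  add_zero f := by ext <;> simp
  neg_add_cancel f := by ext <;> simp [CharTwo.add_self_eq_zero]
  add_comm f g := by ext <;> simp [add_comm]
  nsmul := nsmulRec
  zsmul := zsmulRec

instance : Ring Lam where
  left_distrib f g h := by
    ext i
    · simp [mul_add]
    · simp [mul_add]
    · simp [mul_add]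
    · simp [smul_add, add_smul]; ring
    · simp [smul_add, add_smul]; ring
    · simp [smul_add, add_smul, bil_add_right]; ring
  right_distrib f g h := by
    ext i
    · simp [add_mul]
    · simp [add_mul]
    · simp [add_mul]
    · simp [smul_add, add_smul]; ring
    · simp [smul_add, add_smul]; ring
    · simp [smul_add, add_smul, bil_add_left]; ring
  zero_mul f := by ext <;> simp
  mul_zero f := by ext <;> simp
  mul_assoc f g h := by
    ext i
    · simp [mul_assoc]
    · simp [mul_assoc]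
    · simp [mul_assoc]
    · simp; ring
    · simp; ring
    · simp [bil_add_left, bil_add_right, bil_smul_left, bil_smul_right]; ring
  one_mul f := by ext <;> simp
  mul_one f := by ext <;> simp
  zsmul := zsmulRec
  neg_add_cancel f := neg_add_cancel f

instance : Module (ZMod 2) Lam where
  one_smul f := by ext <;> simp
  mul_smul c d f := by ext <;> simp [mul_assoc]
  smul_zero c := by ext <;> simp
  smul_add c f g := by ext <;> simp [mul_add]
  add_smul c d f := by ext <;> simp [add_mul]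
  zero_smul f := by ext <;> simp

instance : Algebra (ZMod 2) Lam :=
  Algebra.ofModule (fun c f g => by
    ext i
    · simp [mul_assoc]
    · simp [mul_assoc]
    · simp [mul_assoc]
    · simp; ring
    · simp; ring
    · simp [bil_smul_left]; ring) (fun c f g => by
    ext i
    · simp; ring
    · simp; ring
    · simp; ring
    · simp; ring
    · simp; ring
    · simp [bil_smul_right]; ring)

lemma two_eq_zero : (2 : Lam) = 0 := by
  have : (2 : Lam) = 1 + 1 := by norm_num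
  rw [this]; ext i <;> simp <;> decide

end Lam

/-- the element with bit code `n` -/
def lam (n : ℕ) : Lam := ⟨bt n 0, bt n 1, bt n 2, fun j => bt n (3 + j), fun i => bt n (7 + i),
  fun k => bt n (11 + k)⟩

lemma lam_xor (m n : ℕ) : lam (m ^^^ n) = lam m + lam n := by
  ext i <;> simp [lam, bt_xor]

@[simp] lemma lam_zero : lam 0 = 0 := by ext i <;> simp [lam]

/-- coordinate `c < 19` -/
def co (c : ℕ) (f : Lam) : ZMod 2 :=
  if c = 0 then f.a0 else if c = 1 then f.a1 else if c = 2 then f.a2 else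
  if h : c < 7 then f.x ⟨c - 3, by omega⟩ else if h : c < 11 then f.y ⟨c - 7, by omega⟩ else
  if h : c < 19 then f.w ⟨c - 11, by omega⟩ else 0

lemma co_add (c : ℕ) (f g : Lam) : co c (f + g) = co c f + co c g := by
  unfold co; split_ifs <;> simp
lemma co_smul (c : ℕ) (r : ZMod 2) (f : Lam) : co c (r • f) = r * co c f := by
  unfold co; split_ifs <;> simp
@[simp] lemma co_zero (c : ℕ) : co c 0 = 0 := by
  unfold co; split_ifs <;> simp

lemma co_lam {c : ℕ} (hc : c < 19) (n : ℕ) : co c (lam n) = bt n c := by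
  unfold co
  split_ifs with h0 h1 h2 h3 h4
  · subst h0; rfl
  · subst h1; rfl
  · subst h2; rfl
  · simp only [lam]; congr 1; omega
  · simp only [lam]; congr 1; omega
  · simp only [lam]; congr 1; omega

/-- code of the product of the basis elements `a`, `b` -/
def sc (a b : ℕ) : ℕ :=
  if a = 0 then (if b = 0 ∨ (3 ≤ b ∧ b < 7) ∨ (11 ≤ b ∧ b < 19) then 2 ^ b else 0)
  else if a = 1 then (if b = 1 ∨ (7 ≤ b ∧ b < 11) then 2 ^ b else 0)
  else if a = 2 then (if b = 2 then 2 ^ b else 0)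
  else if a < 7 then
    (if b = 1 then 2 ^ a else if 7 ≤ b ∧ b < 11 then (muc.getD (4 * (b - 7) + (a - 3)) 0) <<< 11
      else 0)
  else if a < 19 then (if b = 2 then 2 ^ a else 0)
  else 0

lemma lam_sc_aux : ∀ a < 19, ∀ b < 19, ∀ k : Fin 8,
    (lam (2 ^ a) * lam (2 ^ b)).w k = (lam (sc a b)).w k := by
  decide +kernel

lemma lam_sc_aux2 : ∀ a < 19, ∀ b < 19, ∀ k : Fin 4,
    (lam (2 ^ a) * lam (2 ^ b)).x k = (lam (sc a b)).x k ∧
    (lam (2 ^ a) * lam (2 ^ b)).y k = (lam (sc a b)).y k := by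
  decide +kernel

lemma lam_sc_aux3 : ∀ a < 19, ∀ b < 19,
    (lam (2 ^ a) * lam (2 ^ b)).a0 = (lam (sc a b)).a0 ∧
    (lam (2 ^ a) * lam (2 ^ b)).a1 = (lam (sc a b)).a1 ∧
    (lam (2 ^ a) * lam (2 ^ b)).a2 = (lam (sc a b)).a2 := by
  decide +kernel

lemma lam_sc {a b : ℕ} (ha : a < 19) (hb : b < 19) :
    lam (2 ^ a) * lam (2 ^ b) = lam (sc a b) := by
  obtain ⟨h0, h1, h2⟩ := lam_sc_aux3 a ha b hb
  ext k
  · exact h0
  · exact h1
  · exact h2
  · exact (lam_sc_aux2 a ha b hb k).1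
  · exact (lam_sc_aux2 a ha b hb k).2
  · exact lam_sc_aux a ha b hb k

end Pool.Agent.W595.PT
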