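import Pool.Agent.W595.PT.TC

set_option autoImplicit false

/-!
Exact statements of the parts of project PT (MP_0f1560_al, frozen S00732).
-/

namespace Pool.Agent.W595.PT

universe u

open Gam CategoryTheory

/-- the left ideal `Gam L * (io f * po p)`, for an idempotent `f` of `L` -/
def Gid {L : Type u} [Ring L] (p : ℕ) (f : L) : Submodule (Gam L) (Gam L) where
  carrier := {x | x * (io f * po p) = x}
  zero_mem' := by simp
  add_mem' := by
    intro x y hx hy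
    simp only [Set.mem_ofPred_eq] at *
    rw [add_mul, hx, hy]
  smul_mem' := by
    intro c x hx
    simp only [Set.mem_ofPred_eq, smul_eq_mul] at *
    rw [mul_assoc, hx]

/-- indecomposable direct summands, as in the frozen statement -/
abbrev IndSummand (S : Type u) [Ring S] (M : Type u) [AddCommGroup M] [Module S M] : Type u :=
  {N : Submodule S M // N ≠ ⊥ ∧ (∃ N' : Submodule S M, IsCompl N N') ∧
    ∀ A B : Submodule S M, A ⊔ B = N → A ⊓ B = ⊥ → A = ⊥ ∨ B = ⊥}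

/-- part EXT: exactness of `E_i(W) → E_{i+1}(W) → E_{i+2}(W)` kills `Ext^{i+1}(A.Y, W)` -/
def S_EXT : Prop :=
  ∀ (L : Type u) [Ring L], (2 : L) = 0 → ∀ (A : TC L) (W : Type u) [AddCommGroup W]
    [Module (Gam L) W] (i : ℕ), A.ExactAt W i →
    ∀ [HasExt.{u} (ModuleCat.{u} (Gam L))],
      Subsingleton (Abelian.Ext.{u} (ModuleCat.of (Gam L) A.Y) (ModuleCat.of (Gam L) W) (i + 1))

/-- part LID: the left ideal `Lid L` -/
def S_LID : Prop :=
  ∀ (L : Type u) [Ring L], (2 : L) = 0 → ∀ (A : TC L),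
    (∀ i, A.ExactAt (Lid L) i) ∧ A.Acyc (Lid L)

def S_PROJ : Prop :=
  ∀ (L : Type u) [Ring L], Module.Projective (Gam L) (Lid L)

/-- part NACYC: the total differential module of `Gam L` is not acyclic -/
def S_NACYC : Prop :=
  ∀ (L : Type u) [Ring L] (Z : TC L) (v0 : Fin Z.n), Z.e v0 ≠ 0 →
    (∀ v w x, Z.m v w * x * Z.e v0 = 0) → ¬ Z.Acyc (Gam L)

/-- part BR: from typed families to modules -/
def S_BR : Prop :=
  ∀ (L : Type u) [Ring L] (A B : TC L), TC.HomAcyc A B →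
    (∀ i, A.ExactAt B.Y i) ∧ A.Acyc B.Y

def S_BRS : Prop :=
  ∀ (K : Type u) [CommRing K] (L : Type u) [Ring L] [Algebra K L] (A : TC L), A.HomSelf K →
    ∀ i, A.ExactAt A.Y i

/-- part TILT: acyclicity passes from `T` to `Gam L` along a finite coresolution -/
def S_TILT : Prop :=
  ∀ (L : Type u) [Ring L], (2 : L) = 0 → ∀ (Z : TC L) (T : ModuleCat.{u} (Gam L)), Z.Acyc T →
    (∃ (m : ℕ) (X : ComposableArrows (ModuleCat.{u} (Gam L)) (m + 4)),
      X.Exact ∧ Limits.IsZero (X.obj 0) ∧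
      Limits.IsZero (X.obj (Fin.last (m + 4))) ∧
      Nonempty (X.obj 1 ≅ ModuleCat.of (Gam L) (Gam L)) ∧
      ∀ i : Fin (m + 5), 2 ≤ i.val → i.val ≤ m + 3 →
        ∃ (k : ℕ) (f : X.obj i ⟶ ModuleCat.of (Gam L) (Fin k → (T : Type u)))
          (g : ModuleCat.of (Gam L) (Fin k → (T : Type u)) ⟶ X.obj i), f ≫ g = 𝟙 (X.obj i)) →
    Z.Acyc (Gam L)

/-- part KS: Krull-Schmidt count of the indecomposable direct summands -/
def S_KS : Prop :=
  ∀ (S : Type u) [Ring S] (M : Type u) [AddCommGroup M] [Module S M] (ι : Type) [Fintype ι]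
    (N : ι → Type u) [∀ i, AddCommGroup (N i)] [∀ i, Module S (N i)]
    (_ : M ≃ₗ[S] ((i : ι) → N i)), (∀ i, Nontrivial (N i)) →
    (∀ (i : ι) (f : N i →ₗ[S] N i), f = 0 ∨ Function.Bijective f) →
    (∀ i j, i ≠ j → IsEmpty (N i ≃ₗ[S] N j)) → IsNoetherian S M → IsArtinian S M →
    Nat.card (Quot (fun (A B : IndSummand S M) => Nonempty (A.1 ≃ₗ[S] B.1))) = Fintype.card ι

/-- part ENDY: endomorphisms of `A.Y`, homomorphisms between different `A.Y`, `B.Y` -/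
def S_ENDY : Prop :=
  ∀ (K : Type u) [Field K] (L : Type u) [Ring L] [Algebra K L] (A : TC L), A.HomSelf K →
    (∀ v w, A.pos v = A.pos w + 1 → ∀ x : L, A.e v * x * A.e w = 0) →
    ∀ f : A.Y →ₗ[Gam L] A.Y, f = 0 ∨ Function.Bijective f

def S_HOMY : Prop :=
  ∀ (L : Type u) [Ring L] (A B : TC L),
    (∀ v w, A.pos v = B.pos w → ∀ x : L, A.e v * x * B.e w = 0) →
    ∀ f : A.Y →ₗ[Gam L] B.Y, f = 0

/-- part YG: `A.Y` is not one of the projective modules `Gid p f` -/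
def S_YG : Prop :=
  ∀ (L : Type u) [Ring L] (A : TC L) (v1 v2 v3 : Fin A.n), A.e v1 ≠ 0 → A.e v2 ≠ 0 → A.e v3 ≠ 0 →
    A.pos v1 ≠ A.pos v2 → A.pos v1 ≠ A.pos v3 → A.pos v2 ≠ A.pos v3 →
    ∀ (p : ℕ) (f : L), f * f = f → IsEmpty (A.Y ≃ₗ[Gam L] (Gid p f : Submodule (Gam L) (Gam L)))

/-- part GEND: endomorphisms and homomorphisms of the `Gid p f` -/
def S_GEND : Prop :=
  ∀ (L : Type u) [Ring L] (f : L), f * f = f → (∀ x, f * x * f = 0 ∨ f * x * f = f) →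
    ∀ (p : ℕ) (g : (Gid p f : Submodule (Gam L) (Gam L)) →ₗ[Gam L]
      (Gid p f : Submodule (Gam L) (Gam L))), g = 0 ∨ Function.Bijective g

def S_GHOM : Prop :=
  ∀ (L : Type u) [Ring L] (f g : L), f * f = f → g * g = g → ∀ (p q : ℕ), p < 7 → q < 7 →
    f ≠ 0 → g ≠ 0 → (p ≠ q ∨ (∀ x, f * x * g = 0) ∨ (∀ x, g * x * f = 0)) →
    IsEmpty ((Gid p f : Submodule (Gam L) (Gam L)) ≃ₗ[Gam L]
      (Gid q g : Submodule (Gam L) (Gam L)))

/-- part DEC: decompositions -/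
def S_DEC : Prop :=
  ∀ (L : Type u) [Ring L] (f : Fin 3 → L), (∀ i, f i * f i = f i) →
    (∀ i j, i ≠ j → f i * f j = 0) → f 0 + f 1 + f 2 = 1 →
    Nonempty (Gam L ≃ₗ[Gam L] ((i : Fin 7 × Fin 3) →
      (Gid (i.1 : ℕ) (f i.2) : Submodule (Gam L) (Gam L)))) ∧
    Nonempty (Lid L ≃ₗ[Gam L] ((i : Fin 6 × Fin 3) →
      (Gid (i.1 : ℕ) (f i.2) : Submodule (Gam L) (Gam L))))

end Pool.Agent.W595.PT
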